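import Pool.Agent.H719.OS.Basic

set_option autoImplicit false

/-!
# From algorithms with mixed factors to algorithms with separate factors
-/

namespace Pool.Agent.H719.OS

open Finset Matrix

variable {F : Type*} [Field F] {m : ℕ}

theorem IsAlg.reindex {ι κ : Type*} [Fintype ι] [Fintype κ]
    {left right : ι → Matrix (Fin m) (Fin m) F → F} {W : ι → Matrix (Fin m) (Fin m) F}
    (h : IsAlg left right W) (e : κ ≃ ι) :
    IsAlg (fun l => left (e l)) (fun l => right (e l)) (fun l => W (e l)) := by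
  intro A B
  rw [h A B]
  exact (Equiv.sum_comp e fun l => (left l A * right l B) • W l).symm

/-- the products of factors `α A + β B` -/
theorem isAlg_of_mixed {r : ℕ} (α α' β β' : Fin r → Matrix (Fin m) (Fin m) F → F)
    (hα : ∀ l, α l 0 = 0) (hα' : ∀ l, α' l 0 = 0)
    (W : Fin r → Matrix (Fin m) (Fin m) F) (P Q : Matrix (Fin m) (Fin m) F → Matrix (Fin m) (Fin m) F)
    (h : ∀ A B, A * B = ∑ l, ((α l A + β l B) * (α' l A + β' l B)) • W l + P A + Q B) :
    IsAlg (ι := Fin r ⊕ Fin r) (Sum.elim α α')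
      (Sum.elim (fun l B => β' l B - β' l 0) (fun l B => β l B - β l 0)) (Sum.elim W W) := by
  intro A B
  have h1 := h A B
  have h2 := h A 0
  have h3 := h 0 B
  have h4 := h 0 0
  rw [Matrix.mul_zero] at h2 h4
  rw [Matrix.zero_mul] at h3
  have h5 : A * B = (∑ l, ((α l A + β l B) * (α' l A + β' l B)) • W l) -
      (∑ l, ((α l A + β l 0) * (α' l A + β' l 0)) • W l) -
      (∑ l, ((α l 0 + β l B) * (α' l 0 + β' l B)) • W l) +
      ∑ l, ((α l 0 + β l 0) * (α' l 0 + β' l 0)) • W l := by
    have e1 : (∑ l, ((α l A + β l 0) * (α' l A + β' l 0)) • W l) = - P A - Q 0 := by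
      have := h2
      rw [add_assoc, eq_comm, add_eq_zero_iff_eq_neg] at this
      rw [this]
      abel
    have e2 : (∑ l, ((α l 0 + β l B) * (α' l 0 + β' l B)) • W l) = - P 0 - Q B := by
      have := h3
      rw [add_assoc, eq_comm, add_eq_zero_iff_eq_neg] at this
      rw [this]
      abel
    have e3 : (∑ l, ((α l 0 + β l 0) * (α' l 0 + β' l 0)) • W l) = - P 0 - Q 0 := by
      have := h4
      rw [add_assoc, eq_comm, add_eq_zero_iff_eq_neg] at this
      rw [this]
      abel
    rw [e1, e2, e3, h1]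
    abel
  rw [h5, Fintype.sum_sum_type, ← Finset.sum_sub_distrib, ← Finset.sum_sub_distrib,
    ← Finset.sum_add_distrib, ← Finset.sum_add_distrib]
  refine Finset.sum_congr rfl fun l _ => ?_
  simp only [Sum.elim_inl, Sum.elim_inr, hα, hα']
  rw [← sub_smul, ← sub_smul, ← add_smul, ← add_smul]
  congr 1
  ring

end Pool.Agent.H719.OS
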