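import Pool.Agent.H719.OS.Basic
import Pool.Agent.Y633.MM.Mid

set_option autoImplicit false
set_option linter.unusedSectionVars false

/-!
# Linear networks which process the first matrix
-/

namespace Pool.Agent.H719.OS

open Finset Matrix

/-- A linear network which reads the entries of an `m × m` matrix: gate `v` has `arity v` incoming
wires, the `a`-th one coming from `src v a`, which is an entry of the matrix or a gate, and carrying
the coefficient `coef v a`; the gates are numbered so that wires between gates go from smaller to
larger numbers. -/
structure Net (F : Type*) (m : ℕ) where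
  size : ℕ
  arity : Fin size → ℕ
  src : (v : Fin size) → Fin (arity v) → (Fin m × Fin m) ⊕ Fin size
  coef : (v : Fin size) → Fin (arity v) → F
  acyclic : ∀ v a u, src v a = Sum.inr u → u < v

variable {F : Type*} [Field F] {m : ℕ}

/-- The value of a gate: the linear combination of what is on its wires. -/
noncomputable def Net.val (N : Net F m) (A : Matrix (Fin m) (Fin m) F) (v : Fin N.size) : F :=
  ∑ a, N.coef v a * (match _h : N.src v a with
    | Sum.inl p => A p.1 p.2
    | Sum.inr u => N.val A u)
termination_by v.val
decreasing_by exact N.acyclic v a u _h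

/-- The value of an entry or of a gate. -/
noncomputable def Net.srcVal (N : Net F m) (A : Matrix (Fin m) (Fin m) F) :
    (Fin m × Fin m) ⊕ Fin N.size → F :=
  Sum.elim (fun p => A p.1 p.2) (N.val A)

/-- The number of wires. -/
def Net.numWires (N : Net F m) : ℕ := ∑ v, N.arity v

/-- The number of wires leaving the gate `u`, the products whose left factor is the value of `u`
included. -/
def Net.fanOut {ι : Type*} [Fintype ι] (N : Net F m) (left : ι → (Fin m × Fin m) ⊕ Fin N.size)
    (u : Fin N.size) : ℕ :=
  (∑ v, (univ.filter fun a => N.src v a = Sum.inr u).card) +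
    (univ.filter fun l => left l = Sum.inr u).card

theorem Net.val_eq (N : Net F m) (A : Matrix (Fin m) (Fin m) F) (v : Fin N.size) :
    N.val A v = ∑ a, N.coef v a * N.srcVal A (N.src v a) := by
  rw [Net.val]
  refine Finset.sum_congr rfl fun a _ => ?_
  congr 1
  unfold Net.srcVal
  split
  · rename_i p h
    rw [h, Sum.elim_inl]
  · rename_i u h
    rw [h, Sum.elim_inr]

theorem Net.val_lin (N : Net F m) (A B : Matrix (Fin m) (Fin m) F) (c : F) (v : Fin N.size) :
    N.val (c • A + B) v = c * N.val A v + N.val B v := by
  obtain ⟨v, hv⟩ := v
  induction v using Nat.strong_induction_on with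
  | _ v ih =>
    rw [N.val_eq, N.val_eq, N.val_eq, Finset.mul_sum, ← Finset.sum_add_distrib]
    refine Finset.sum_congr rfl fun a _ => ?_
    cases h : N.src ⟨v, hv⟩ a with
    | inl p =>
      simp only [Net.srcVal, Sum.elim_inl, Matrix.add_apply, Matrix.smul_apply, smul_eq_mul]
      ring
    | inr u =>
      have h1 := ih u.1 (N.acyclic _ a u h) u.2
      simp only [Net.srcVal, Sum.elim_inr]
      rw [show (⟨u.1, u.2⟩ : Fin N.size) = u from rfl] at h1
      rw [h1]
      ring

/-- the value of a gate as a linear function -/
noncomputable def Net.valL (N : Net F m) (v : Fin N.size) :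
    Matrix (Fin m) (Fin m) F →ₗ[F] F where
  toFun A := N.val A v
  map_add' A B := by
    have := N.val_lin A B 1 v
    rwa [one_smul, one_mul] at this
  map_smul' c A := by
    have h0 : N.val 0 v = 0 := by
      have := N.val_lin 0 0 1 v
      rw [smul_zero, add_zero, one_mul] at this
      exact left_eq_add.mp this
    have := N.val_lin A 0 c v
    rw [add_zero, h0, add_zero] at this
    exact this

/-! ### The network as a circuit whose sinks are the products -/

open Pool.Agent.Y633.Dep Pool.Agent.Y633.Wire Pool.Agent.Y633.Gen Pool.Agent.Y633.GenK

variable {r : ℕ}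

/-- a source, as a source of the circuit -/
def cs (s r : ℕ) : (Fin m × Fin m) ⊕ Fin s → Src (m * m) 1 (s + r) :=
  Sum.elim (fun p => Sum.inl (Sum.inl (finProdFinEquiv p))) (fun u => Sum.inr (Fin.castAdd r u))

/-- the circuit -/
abbrev Net.circ (N : Net F m) (left : Fin r → (Fin m × Fin m) ⊕ Fin N.size) (hr : 0 < r) :
    Circuit (m * m) 1 where
  size := N.size + r
  arity := Fin.addCases N.arity fun _ => 1
  src := Fin.addCases (fun v a => cs N.size r (N.src v (Fin.cast (Fin.addCases_left v) a)))
    fun l _ => cs N.size r (left l)
  op := fun _ _ => false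
  acyclic := by
    intro v a u h
    induction v using Fin.addCases with
    | left v =>
      rw [Fin.addCases_left] at h
      cases hs : N.src v (Fin.cast (Fin.addCases_left v) a) with
      | inl p =>
        rw [hs] at h
        simp [cs] at h
      | inr w =>
        rw [hs] at h
        simp only [cs, Sum.elim_inr, Sum.inr.injEq] at h
        have := N.acyclic v _ w hs
        rw [← h]
        exact this
    | right l =>
      rw [Fin.addCases_right] at h
      cases hs : left l with
      | inl p =>
        rw [hs] at h
        simp [cs] at h
      | inr w =>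
        rw [hs] at h
        simp only [cs, Sum.elim_inr, Sum.inr.injEq] at h
        rw [← h]
        have := w.2
        simp only [Fin.lt_def, Fin.val_castAdd, Fin.val_natAdd]
        omega
  out := Fin.natAdd N.size ⟨0, hr⟩

variable (N : Net F m) (left : Fin r → (Fin m × Fin m) ⊕ Fin N.size) (hr : 0 < r)

theorem sum_left (f : Src (m * m) 1 (N.size + r) → ℕ) (v : Fin N.size) :
    ∑ a, f ((N.circ left hr).src (Fin.castAdd r v) a) = ∑ a, f (cs N.size r (N.src v a)) := by
  have h : (N.circ left hr).arity (Fin.castAdd r v) = N.arity v := by
    simp only [Fin.addCases_left]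
  refine Fintype.sum_equiv (finCongr h) _ _ fun a => ?_
  have h1 : (N.circ left hr).src (Fin.castAdd r v) a =
      cs N.size r (N.src v (Fin.cast h a)) := by
    unfold Net.circ
    simp only
    rw [Fin.addCases_left]
  rw [h1]
  rfl

theorem sum_right (f : Src (m * m) 1 (N.size + r) → ℕ) (l : Fin r) :
    ∑ a, f ((N.circ left hr).src (Fin.natAdd N.size l) a) = f (cs N.size r (left l)) := by
  have h : (N.circ left hr).arity (Fin.natAdd N.size l) = 1 := by
    simp only [Fin.addCases_right]
  have h1 : ∀ a, (N.circ left hr).src (Fin.natAdd N.size l) a = cs N.size r (left l) := by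
    intro a
    unfold Net.circ
    simp only
    rw [Fin.addCases_right]
  refine (Finset.sum_congr rfl fun a _ => congrArg f (h1 a)).trans ?_
  rw [Finset.sum_const, Finset.card_univ, Fintype.card_fin, h, one_smul]

theorem circ_numWires : (N.circ left hr).numWires = N.numWires + r := by
  unfold Circuit.numWires Net.numWires
  have h1 : ∑ v, (N.circ left hr).arity v = ∑ v : Fin (N.size + r), ∑ _a : Fin ((N.circ left
      hr).arity v), 1 := by
    refine Finset.sum_congr rfl fun v _ => ?_
    rw [Finset.sum_const, Finset.card_univ, Fintype.card_fin, smul_eq_mul, mul_one]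
  rw [h1, Fin.sum_univ_add]
  congr 1
  · refine Finset.sum_congr rfl fun v _ => ?_
    rw [sum_left N left hr (fun _ => 1), Finset.sum_const, Finset.card_univ, Fintype.card_fin,
      smul_eq_mul, mul_one]
  · rw [Finset.sum_congr rfl fun l _ => sum_right N left hr (fun _ => 1) l]
    simp

theorem cs_inr {s : ℕ} (x : (Fin m × Fin m) ⊕ Fin s) (u : Fin s) :
    cs s r x = Sum.inr (Fin.castAdd r u) ↔ x = Sum.inr u := by
  cases x with
  | inl p => simp [cs]
  | inr w => simp [cs]

theorem cs_inr_nat {s : ℕ} (x : (Fin m × Fin m) ⊕ Fin s) (l : Fin r) :
    cs s r x ≠ Sum.inr (Fin.natAdd s l) := by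
  cases x with
  | inl p => simp [cs]
  | inr w =>
    simp only [cs, Sum.elim_inr, ne_eq, Sum.inr.injEq]
    intro h
    have := congrArg Fin.val h
    simp only [Fin.val_castAdd, Fin.val_natAdd] at this
    have := w.2
    omega

theorem cs_inl {s : ℕ} (x : (Fin m × Fin m) ⊕ Fin s) (p : Fin m × Fin m) :
    cs s r x = Sum.inl (Sum.inl (finProdFinEquiv p)) ↔ x = Sum.inl p := by
  cases x with
  | inl p => simp [cs]
  | inr w => simp [cs]

open Classical in
theorem fanOut_left (u : Fin N.size) :
    (N.circ left hr).fanOut (Fin.castAdd r u) = N.fanOut left u := by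
  unfold Circuit.fanOut Net.fanOut
  have h1 : ∀ v, (univ.filter fun a => (N.circ left hr).src v a =
      Sum.inr (Fin.castAdd r u)).card = ∑ a, if (N.circ left hr).src v a =
      Sum.inr (Fin.castAdd r u) then 1 else 0 := fun v => card_filter _ _
  rw [Finset.sum_congr rfl fun v _ => h1 v]
  have h2 := Fin.sum_univ_add (fun v : Fin (N.size + r) => ∑ a, if (N.circ left hr).src v a =
      Sum.inr (Fin.castAdd r u) then 1 else 0)
  refine h2.trans ?_
  congr 1
  · refine Finset.sum_congr rfl fun v _ => ?_
    refine (sum_left N left hr (fun x => if x = Sum.inr (Fin.castAdd r u) then 1 else 0)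
      v).trans ?_
    rw [card_filter]
    refine Finset.sum_congr rfl fun a _ => ?_
    simp only [cs_inr]
  · rw [card_filter]
    refine Finset.sum_congr rfl fun l _ => ?_
    refine (sum_right N left hr (fun x => if x = Sum.inr (Fin.castAdd r u) then 1 else 0)
      l).trans ?_
    simp only [cs_inr]

open Classical in
theorem fanOut_right (l : Fin r) : (N.circ left hr).fanOut (Fin.natAdd N.size l) = 0 := by
  unfold Circuit.fanOut
  refine Finset.sum_eq_zero fun v _ => ?_
  rw [Finset.card_eq_zero, Finset.filter_eq_empty_iff]
  intro a _
  induction v using Fin.addCases with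
  | left v =>
    have h1 := sum_left N left hr (fun x => if x = Sum.inr (Fin.natAdd N.size l) then 1 else 0) v
    simp only [cs_inr_nat, if_false, Finset.sum_const_zero] at h1
    have h2 := Finset.sum_eq_zero_iff.1 h1 a (mem_univ _)
    intro h3
    rw [if_pos h3] at h2
    exact one_ne_zero h2
  | right l' =>
    have h1 := sum_right N left hr (fun x => if x = Sum.inr (Fin.natAdd N.size l) then 1 else 0)
      l'
    simp only [cs_inr_nat, if_false] at h1
    have h2 := Finset.sum_eq_zero_iff.1 h1 a (mem_univ _)
    intro h3
    rw [if_pos h3] at h2
    exact one_ne_zero h2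

theorem wire_left (u v : Fin N.size) (a) (h : (N.circ left hr).src (Fin.castAdd r v) a =
    Sum.inr (Fin.castAdd r u)) : ∃ a, N.src v a = Sum.inr u := by
  classical
  by_contra hcon
  push Not at hcon
  have h1 := sum_left N left hr (fun x => if x = Sum.inr (Fin.castAdd r u) then 1 else 0) v
  simp only [cs_inr, hcon, if_false, Finset.sum_const_zero] at h1
  have h2 := Finset.sum_eq_zero_iff.1 h1 a (mem_univ _)
  rw [if_pos h] at h2
  exact one_ne_zero h2

theorem wire_old (x y : Fin (N.size + r)) (a) (h : (N.circ left hr).src y a = Sum.inr x) :
    ∃ u, x = Fin.castAdd r u := by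
  induction x using Fin.addCases with
  | left u => exact ⟨u, rfl⟩
  | right l =>
    exfalso
    have h1 := fanOut_right N left hr l
    unfold Circuit.fanOut at h1
    have h2 := Finset.sum_eq_zero_iff.1 h1 y (mem_univ _)
    rw [Finset.card_eq_zero, Finset.filter_eq_empty_iff] at h2
    exact h2 (mem_univ a) h

/-- the gate of the network -/
def old : Fin (N.size + r) → Option (Fin N.size) := Fin.addCases some fun _ => none

theorem chain_old (l : List (Fin (N.size + r)))
    (hl : l.IsChain (fun j i => ∃ a, (N.circ left hr).src i a = Sum.inr j)) :
    (l.filterMap (old N)).IsChain (fun u v => ∃ a, N.src v a = Sum.inr u) ∧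
      l.countP (fun j => 2 ≤ (N.circ left hr).fanOut j) =
        (l.filterMap (old N)).countP (fun v => 2 ≤ N.fanOut left v) := by
  induction l with
  | nil => exact ⟨List.IsChain.nil, rfl⟩
  | cons x t ih =>
    have ht := ih hl.tail
    have hx : old N x = none ∨ ∃ u, x = Fin.castAdd r u := by
      induction x using Fin.addCases with
      | left u => exact Or.inr ⟨u, rfl⟩
      | right l => exact Or.inl (by simp [old])
    cases t with
    | nil =>
      induction x using Fin.addCases with
      | left u =>
        have e1 : old N (Fin.castAdd r u) = some u := by simp [old]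
        refine ⟨?_, ?_⟩
        · rw [List.filterMap_cons_some e1, List.filterMap_nil]
          exact List.IsChain.singleton _
        · rw [List.filterMap_cons_some e1, List.filterMap_nil, List.countP_singleton,
            List.countP_singleton, fanOut_left]
      | right l =>
        have e1 : old N (Fin.natAdd N.size l) = none := by simp [old]
        refine ⟨?_, ?_⟩
        · rw [List.filterMap_cons_none e1, List.filterMap_nil]
          exact List.IsChain.nil
        · rw [List.filterMap_cons_none e1, List.filterMap_nil, List.countP_singleton,
            fanOut_right]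
          simp
    | cons y t' =>
      obtain ⟨a, ha⟩ := (List.isChain_cons_cons.1 hl).1
      obtain ⟨u, rfl⟩ := wire_old N left hr x y a ha
      have e1 : old N (Fin.castAdd r u) = some u := by simp [old]
      rw [List.filterMap_cons_some e1]
      refine ⟨?_, ?_⟩
      · induction y using Fin.addCases with
        | left v =>
          have e2 : old N (Fin.castAdd r v) = some v := by simp [old]
          rw [List.filterMap_cons_some e2]
          rw [List.filterMap_cons_some e2] at ht
          exact List.isChain_cons_cons.2 ⟨wire_left N left hr u v a ha, ht.1⟩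
        | right l =>
          have e2 : old N (Fin.natAdd N.size l) = none := by simp [old]
          cases t' with
          | nil =>
            rw [List.filterMap_cons_none e2, List.filterMap_nil]
            exact List.IsChain.singleton _
          | cons z t'' =>
            exfalso
            obtain ⟨b, hb⟩ := (List.isChain_cons_cons.1 hl.tail).1
            obtain ⟨w, hw⟩ := wire_old N left hr _ z b hb
            have := congrArg Fin.val hw
            simp only [Fin.val_castAdd, Fin.val_natAdd] at this
            have := w.2
            omega
      · rw [List.countP_cons, ht.2, List.countP_cons, fanOut_left]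

theorem sharing_le {h : ℕ} (hN : ∀ l : List (Fin N.size),
    l.IsChain (fun u v => ∃ a, N.src v a = Sum.inr u) →
      l.countP (fun v => 2 ≤ N.fanOut left v) ≤ h) :
    (N.circ left hr).SharingDepthLE ∅ h := by
  intro l hl _
  obtain ⟨h1, h2⟩ := chain_old N left hr l hl
  rw [h2]
  exact hN _ h1

end Pool.Agent.H719.OS
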