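import Pool.Agent.H719.OS.Choose
import Pool.Agent.H719.OS.Net

set_option autoImplicit false
set_option linter.unusedSectionVars false

/-!
# Shallow processing of the first matrix
-/

namespace Pool.Agent.H719.OS

open Finset Matrix Pool.Agent.Y633.Dep Pool.Agent.Y633.Wire Pool.Agent.Y633.Gen
  Pool.Agent.Y633.GenK Pool.Agent.Y633.MM

variable {F : Type*} [Field F] {m r : ℕ}

open Classical in
/-- the gates which are set to zero -/
noncomputable def killed (N : Net F m) (R : Finset (Fin (N.size + r)))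
    (ℓ : Fin (N.size + r) → ℕ) : Finset (Fin N.size) :=
  univ.filter fun v => Fin.castAdd r v ∈ R ∧ ℓ (Fin.castAdd r v) ≠ 0

theorem card_killed (N : Net F m) (R : Finset (Fin (N.size + r)))
    (ℓ : Fin (N.size + r) → ℕ) : (killed N R ℓ).card ≤ (R.filter fun v => ℓ v ≠ 0).card := by
  classical
  refine card_le_card_of_injOn (Fin.castAdd r) (fun v hv => ?_)
    (fun v _ w _ h => Fin.castAdd_injective _ _ h)
  unfold killed at hv
  rw [mem_coe, mem_filter] at hv
  rw [mem_coe, mem_filter]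
  exact hv.2

/-- the values of the gates which are not reached -/
theorem val_zero (N : Net F m) (left : Fin r → (Fin m × Fin m) ⊕ Fin N.size) (hr : 0 < r)
    (G : Finset (Fin m × Fin m)) (R : Finset (Fin (N.size + r)))
    (ℓ : Fin (N.size + r) → ℕ)
    (hℓ : IsWt (N.circ left hr) (G.map finProdFinEquiv.toEmbedding) R ℓ)
    {A : Matrix (Fin m) (Fin m) F} (hA : A ∈ sub G (killed N R ℓ) N.valL) (v : Fin N.size) :
    (ℓ (Fin.castAdd r v) = 0 → N.val A v = 0) ∧
      (Fin.castAdd r v ∈ R → N.val A v = 0) := by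
  classical
  obtain ⟨v, hv⟩ := v
  induction v using Nat.strong_induction_on with
  | _ v ih =>
    have key : ℓ (Fin.castAdd r ⟨v, hv⟩) = 0 → N.val A ⟨v, hv⟩ = 0 := by
      intro h0
      rw [hℓ, sum_left N left hr (swt (G.map finProdFinEquiv.toEmbedding) R ℓ)] at h0
      rw [N.val_eq]
      refine Finset.sum_eq_zero fun a _ => ?_
      have h1 := Finset.sum_eq_zero_iff.1 h0 a (mem_univ _)
      cases hs : N.src ⟨v, hv⟩ a with
      | inl p =>
        rw [hs] at h1
        have h2 : p ∉ G := by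
          intro hp
          have hp' : finProdFinEquiv p ∈ G.map finProdFinEquiv.toEmbedding :=
            mem_map_of_mem finProdFinEquiv.toEmbedding hp
          simp only [cs, Sum.elim_inl, swt] at h1
          rw [if_pos hp'] at h1
          exact one_ne_zero h1
        have h3 := hA.1 p h2
        simp only [Net.srcVal, Sum.elim_inl, h3, mul_zero]
      | inr u =>
        rw [hs] at h1
        have hu := ih u.1 (N.acyclic _ a u hs) u.2
        rw [show (⟨u.1, u.2⟩ : Fin N.size) = u from rfl] at hu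
        simp only [Net.srcVal, Sum.elim_inr]
        have h4 : N.val A u = 0 := by
          by_cases hR : Fin.castAdd r u ∈ R
          · exact hu.2 hR
          · refine hu.1 ?_
            simp only [cs, Sum.elim_inr, swt] at h1
            rwa [if_neg hR] at h1
        rw [h4, mul_zero]
    refine ⟨key, fun hR => ?_⟩
    by_cases h0 : ℓ (Fin.castAdd r ⟨v, hv⟩) = 0
    · exact key h0
    · exact hA.2 ⟨v, hv⟩ (mem_filter.2 ⟨mem_univ _, hR, h0⟩)

/-- the products which are alive are reached -/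
theorem alive_le (N : Net F m) (left : Fin r → (Fin m × Fin m) ⊕ Fin N.size) (hr : 0 < r)
    (G : Finset (Fin m × Fin m)) (R : Finset (Fin (N.size + r)))
    (ℓ : Fin (N.size + r) → ℕ)
    (hℓ : IsWt (N.circ left hr) (G.map finProdFinEquiv.toEmbedding) R ℓ) :
    (alive (fun l A => N.srcVal A (left l))
      (sub G (killed N R ℓ) N.valL : Set (Matrix (Fin m) (Fin m) F))).card ≤
      ∑ v ∈ univ.filter (fun v => (N.circ left hr).fanOut v = 0), ℓ v := by
  classical
  have h1 : (alive (fun l A => N.srcVal A (left l))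
      (sub G (killed N R ℓ) N.valL : Set (Matrix (Fin m) (Fin m) F))) ⊆
      univ.filter fun l => ℓ (Fin.natAdd N.size l) ≠ 0 := by
    intro l hl
    unfold alive at hl
    rw [mem_filter] at hl
    obtain ⟨-, A, hA, hne⟩ := hl
    rw [mem_filter]
    refine ⟨mem_univ _, fun h0 => hne ?_⟩
    rw [hℓ, sum_right N left hr (swt (G.map finProdFinEquiv.toEmbedding) R ℓ)] at h0
    cases hs : left l with
    | inl p =>
      rw [hs] at h0
      have h2 : p ∉ G := by
        intro hp
        have hp' : finProdFinEquiv p ∈ G.map finProdFinEquiv.toEmbedding :=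
          mem_map_of_mem finProdFinEquiv.toEmbedding hp
        simp only [cs, Sum.elim_inl, swt] at h0
        rw [if_pos hp'] at h0
        exact one_ne_zero h0
      show N.srcVal A (left l) = 0
      rw [Net.srcVal, hs, Sum.elim_inl]
      exact hA.1 p h2
    | inr u =>
      rw [hs] at h0
      have hu := val_zero N left hr G R ℓ hℓ hA u
      show N.srcVal A (left l) = 0
      rw [Net.srcVal, hs, Sum.elim_inr]
      by_cases hR : Fin.castAdd r u ∈ R
      · exact hu.2 hR
      · refine hu.1 ?_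
        simp only [cs, Sum.elim_inr, swt] at h0
        rwa [if_neg hR] at h0
  refine (card_le_card h1).trans ?_
  rw [card_filter]
  calc ∑ l : Fin r, (if ℓ (Fin.natAdd N.size l) ≠ 0 then 1 else 0)
      ≤ ∑ l : Fin r, ℓ (Fin.natAdd N.size l) := by
        refine Finset.sum_le_sum fun l _ => ?_
        split_ifs <;> omega
    _ = ∑ v ∈ univ.image (Fin.natAdd N.size : Fin r → Fin (N.size + r)), ℓ v := by
        rw [Finset.sum_image]
        intro a _ b _ h
        exact Fin.natAdd_injective _ _ h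
    _ ≤ _ := by
        refine Finset.sum_le_sum_of_subset fun v hv => ?_
        obtain ⟨l, -, rfl⟩ := mem_image.1 hv
        exact mem_filter.2 ⟨mem_univ _, fanOut_right N left hr l⟩

/-- the arithmetic at the end -/
theorem arith {c' q t m ρ I X : ℕ} (hm : 0 < m) (ht1 : 1 ≤ t) (hq1 : 1 ≤ q)
    (ht2 : t * (2 * q) ≤ m) (hq : q = 4 * c' * (1 + X)) (hI : I ≤ 2 * c' * (t * m))
    (h1 : ρ * m ≤ I + I * X) (h2 : t * m ≤ 2 * (t * ρ)) : False := by
  have h3 : m ≤ 2 * ρ := by
    have : t * m ≤ t * (2 * ρ) := by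
      calc t * m ≤ 2 * (t * ρ) := h2
        _ = t * (2 * ρ) := by ring
    exact Nat.le_of_mul_le_mul_left this ht1
  have h4 : I + I * X ≤ 2 * c' * (t * m) * (1 + X) := by
    calc I + I * X = I * (1 + X) := by ring
      _ ≤ _ := Nat.mul_le_mul_right _ hI
  have h5 : 2 * (2 * c' * (t * m) * (1 + X)) = t * q * m := by
    rw [hq]
    ring
  have h6 : m * m ≤ 2 * (ρ * m) := by
    calc m * m ≤ (2 * ρ) * m := Nat.mul_le_mul_right _ h3
      _ = 2 * (ρ * m) := by ring
  have h7 : m * m ≤ t * q * m := by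
    rw [← h5]
    omega
  have h8 : m ≤ t * q := Nat.le_of_mul_le_mul_right h7 hm
  have h9 : 1 ≤ t * q := Nat.mul_pos ht1 hq1
  have h10 : t * (2 * q) = 2 * (t * q) := by ring
  omega

theorem arith2 {c' q t m hi y : ℕ} (hc : 0 < c') (hq1 : 1 ≤ q) (htQ : m ≤ 4 * q * t)
    (hxy : 32 * c' * q ≤ y) (hhi : y * hi ≤ c' * (m * m)) : 8 * hi ≤ t * m := by
  have h1 : 32 * c' * q * hi ≤ c' * (m * m) := (Nat.mul_le_mul_right _ hxy).trans hhi
  have h2 : c' * (m * m) ≤ c' * ((4 * q * t) * m) :=
    Nat.mul_le_mul_left _ (Nat.mul_le_mul_right _ htQ)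
  have h3 : (4 * c' * q) * (8 * hi) ≤ (4 * c' * q) * (t * m) := by
    calc (4 * c' * q) * (8 * hi) = 32 * c' * q * hi := by ring
      _ ≤ c' * ((4 * q * t) * m) := h1.trans h2
      _ = (4 * c' * q) * (t * m) := by ring
  exact Nat.le_of_mul_le_mul_left h3 (by positivity)

theorem arith3 {c' t m a b s : ℕ} (hc : 0 < c') (hm : 0 < m)
    (hall : s ≤ 2 * c' * (m * m)) (hGw : m * (a + 16 * c' * b) ≤ t * s) :
    a ≤ 2 * c' * (t * m) ∧ 8 * b ≤ t * m := by
  have h1 : m * (a + 16 * c' * b) ≤ m * (2 * c' * (t * m)) := by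
    calc m * (a + 16 * c' * b) ≤ t * s := hGw
      _ ≤ t * (2 * c' * (m * m)) := Nat.mul_le_mul_left _ hall
      _ = m * (2 * c' * (t * m)) := by ring
  have h2 := Nat.le_of_mul_le_mul_left h1 hm
  refine ⟨by omega, ?_⟩
  have h3 : 2 * c' * (8 * b) ≤ 2 * c' * (t * m) := by
    calc 2 * c' * (8 * b) = 16 * c' * b := by ring
      _ ≤ 2 * c' * (t * m) := by omega
  exact Nat.le_of_mul_le_mul_left h3 (by omega)

theorem arith4 {h n S : ℕ} (hcost : 16 * (h + 1) * S ≤ h * n) : 16 * S ≤ n := by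
  have h1 : (h + 1) * (16 * S) ≤ (h + 1) * n := by
    calc (h + 1) * (16 * S) = 16 * (h + 1) * S := by ring
      _ ≤ h * n := hcost
      _ ≤ (h + 1) * n := Nat.mul_le_mul_right _ (Nat.le_succ _)
  exact Nat.le_of_mul_le_mul_left h1 (Nat.succ_pos _)

universe u

/-- The number of products is superlinear if the first matrix is processed by a network of linear
size without paths through many shared gates. -/
theorem shallow (c h L : ℕ) : ∃ m₀ : ℕ, ∀ (F : Type u) [Field F] (m : ℕ), m₀ ≤ m →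
    ∀ (N : Net F m) (r : ℕ) (left : Fin r → (Fin m × Fin m) ⊕ Fin N.size)
      (right : Fin r → Matrix (Fin m) (Fin m) F → F) (W : Fin r → Matrix (Fin m) (Fin m) F),
      IsAlg (fun l A => N.srcVal A (left l)) right W →
      N.numWires ≤ c * m ^ 2 →
      (∀ l : List (Fin N.size), l.IsChain (fun u v => ∃ a, N.src v a = Sum.inr u) →
        l.countP (fun v => 2 ≤ N.fanOut left v) ≤ h) →
      L * m ^ 2 < r := by
  obtain ⟨c', hc'⟩ : ∃ c', c' = c + L + 1 := ⟨_, rfl⟩
  have hc0 : 0 < c' := by omega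
  obtain ⟨Y, hY⟩ := mid_cost c' (16 * (h + 1)) h
    (fun x => 32 * c' * (4 * c' * (1 + (2 * x) ^ h)))
  refine ⟨2 * (4 * c' * (1 + (2 * Y) ^ h)) + 8, ?_⟩
  intro F _ m hm N r left right W halg hwires hpaths
  classical
  by_contra hcon
  push Not at hcon
  have hm0 : 0 < m := by omega
  -- there is a product
  have hr : 0 < r := by
    rcases Nat.eq_zero_or_pos r with h0 | h0
    · exfalso
      subst h0
      have h1 : (1 : Matrix (Fin m) (Fin m) F) ≠ 0 := by
        have : Nonempty (Fin m) := ⟨⟨0, hm0⟩⟩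
        exact one_ne_zero
      have h2 := key_one halg h1
      have h3 : (alive (fun l A => N.srcVal A (left l)) {(1 : Matrix (Fin m) (Fin m) F)}).card ≤
          (univ : Finset (Fin 0)).card := card_le_card (subset_univ _)
      rw [card_univ, Fintype.card_fin] at h3
      omega
    · exact h0
  have hn : m * m = m ^ 2 := (sq m).symm
  have hwt : (N.circ left hr).numWires ≤ c' * (m * m) := by
    rw [circ_numWires, hn, hc']
    have : (c + L + 1) * m ^ 2 = c * m ^ 2 + L * m ^ 2 + m ^ 2 := by ring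
    omega
  obtain ⟨x, y, Rc, cost, hx1, hxY, hxy, hcost, hG⟩ := hY (m * m) (N.circ left hr) hwt
    (sharing_le N left hr hpaths)
  -- the number of live entries in each column
  obtain ⟨X, hX⟩ : ∃ X, X = (2 * x) ^ h := ⟨_, rfl⟩
  obtain ⟨q, hq⟩ : ∃ q, q = 4 * c' * (1 + X) := ⟨_, rfl⟩
  have hqY : 2 * q ≤ m := by
    have h1 : X ≤ (2 * Y) ^ h := by
      rw [hX]
      gcongr
    have h2 : q ≤ 4 * c' * (1 + (2 * Y) ^ h) := by
      rw [hq]
      gcongr
    omega
  rw [← hX, ← hq] at hxy
  have hq1 : 1 ≤ q := by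
    rw [hq]
    exact Nat.succ_le_of_lt (by positivity)
  obtain ⟨t, ht⟩ : ∃ t, t = m / (2 * q) := ⟨_, rfl⟩
  have hq2 : 0 < 2 * q := by omega
  have ht1 : 1 ≤ t := by
    rw [ht, Nat.le_div_iff_mul_le hq2, one_mul]
    exact hqY
  have ht2 : t * (2 * q) ≤ m := by
    rw [ht]
    exact Nat.div_mul_le_self _ _
  have ht3 : m < (t + 1) * (2 * q) := by
    rw [← Nat.div_lt_iff_lt_mul hq2, ht]
    exact Nat.lt_succ_self _
  have htm : t ≤ m := le_trans (Nat.le_mul_of_pos_right t hq2) ht2
  have htQ : m ≤ 4 * q * t := by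
    have h1 : (t + 1) * (2 * q) ≤ (t + t) * (2 * q) := Nat.mul_le_mul_right _ (by omega)
    have h2 : (t + t) * (2 * q) = 4 * q * t := by ring
    omega
  -- the live entries
  obtain ⟨wt, hwtdef⟩ : ∃ wt : Fin m × Fin m → ℕ, wt = fun p =>
    inFan (N.circ left hr) (finProdFinEquiv p) + 16 * c' * cost (finProdFinEquiv p) := ⟨_, rfl⟩
  obtain ⟨G, hGcard, hGcol, hGw⟩ := exists_G wt t htm
  have hsumall : ∀ f : Fin (m * m) → ℕ, ∑ p : Fin m × Fin m, f (finProdFinEquiv p) = ∑ g, f g :=
    fun f => Equiv.sum_comp finProdFinEquiv f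
  have hcost16 := arith4 hcost
  have hall : ∑ p, wt p ≤ 2 * c' * (m * m) := by
    have h1 : ∑ p, wt p = ∑ g, inFan (N.circ left hr) g + 16 * c' * ∑ g, cost g := by
      rw [hwtdef, sum_add_distrib, ← mul_sum, hsumall, hsumall]
    have h2 := (sum_inFan_le (N.circ left hr)).trans hwt
    have h3 : 16 * c' * ∑ g, cost g ≤ c' * (m * m) := by
      calc 16 * c' * ∑ g, cost g = c' * (16 * ∑ g, cost g) := by ring
        _ ≤ _ := Nat.mul_le_mul_left _ hcost16
    have h4 : 2 * c' * (m * m) = c' * (m * m) + c' * (m * m) := by ring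
    omega
  have hsplit : ∑ p ∈ G, wt p = ∑ p ∈ G, inFan (N.circ left hr) (finProdFinEquiv p) +
      16 * c' * ∑ p ∈ G, cost (finProdFinEquiv p) := by
    rw [hwtdef, sum_add_distrib, ← mul_sum]
  rw [hsplit] at hGw
  obtain ⟨hGin, hGcost⟩ := arith3 hc0 hm0 hall hGw
  obtain ⟨ℓ, hℓ, hflow, hi, hkill, hhi⟩ := hG (G.map finProdFinEquiv.toEmbedding)
  rw [inWires_eq, sum_map] at hflow
  rw [sum_map] at hkill
  simp only [Equiv.coe_toEmbedding] at hflow hkill
  -- few gates are killed
  have hhi' : 8 * hi ≤ t * m := arith2 hc0 hq1 htQ hxy hhi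
  have hkill' : 2 * (killed N Rc ℓ).card ≤ t * m := by
    have h1 := card_killed N Rc ℓ
    have h2 : 8 ≤ t * m := by
      calc 8 ≤ m := by omega
        _ = 1 * m := (one_mul m).symm
        _ ≤ t * m := Nat.mul_le_mul_right _ ht1
    omega
  -- the subspace
  have hfin := finrank_sub (F := F) G (killed N Rc ℓ) N.valL
  rw [hGcard] at hfin
  have hrow := finrank_le_rowSp (sub G (killed N Rc ℓ) N.valL) G (fun A hA => hA.1) t hGcol
  have halive := rowSp_le halg (sub G (killed N Rc ℓ) N.valL : Set (Matrix (Fin m) (Fin m) F))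
  have hal := alive_le N left hr G Rc ℓ hℓ
  have hsink := sink_flow (N.circ left hr) (G.map finProdFinEquiv.toEmbedding) Rc ℓ hℓ
  rw [inWires_eq, sum_map] at hsink
  simp only [Equiv.coe_toEmbedding] at hsink
  rw [← hX] at hflow
  refine arith (ρ := Module.finrank F (rowSp
    (sub G (killed N Rc ℓ) N.valL : Set (Matrix (Fin m) (Fin m) F)))) hm0 ht1 hq1 ht2 hq hGin ?_ ?_
  · exact halive.trans (hal.trans (hsink.trans (Nat.add_le_add_left hflow _)))
  · have h1 : t * m ≤ t * Module.finrank F (rowSp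
        (sub G (killed N Rc ℓ) N.valL : Set (Matrix (Fin m) (Fin m) F))) +
        (killed N Rc ℓ).card := hfin.trans (Nat.add_le_add_right hrow _)
    omega

end Pool.Agent.H719.OS
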