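import Pool.Agent.H719.OS.Wiring
import Pool.Agent.H719.OS.Shallow
import Pool.Agent.H719.OS.Model

set_option autoImplicit false
set_option linter.unusedSectionVars false

/-!
# The abstract theorem
-/

namespace Pool.Agent.H719.OS

open Finset Matrix Pool.Agent.Y633.Dep Pool.Agent.Y633.Wire Pool.Agent.Y633.Gen
  Pool.Agent.Y633.GenK Pool.Agent.Y633.MM

/-! ### Wirings as networks in the sense of `Net` -/

section wiring

variable {ι : Type*}

/-- the wires which end at a gate -/
noncomputable def Wiring.enum (N : Wiring ι) (v : Fin N.size) :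
    Fin (N.fanIn v) ≃ {e // e ∈ univ.filter fun e => N.dst e = v} :=
  (Finset.equivFin _).symm

theorem Wiring.enum_dst (N : Wiring ι) (v : Fin N.size) (a : Fin (N.fanIn v)) :
    N.dst (N.enum v a).1 = v := (mem_filter.1 (N.enum v a).2).2

theorem Wiring.sum_enum {M : Type*} [AddCommMonoid M] (N : Wiring ι) (v : Fin N.size)
    (g : Fin N.wires → M) :
    ∑ a, g (N.enum v a).1 = ∑ e ∈ univ.filter (fun e => N.dst e = v), g e := by
  rw [Equiv.sum_comp (N.enum v) fun e => g e.1]
  exact Finset.sum_coe_sort _ g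

theorem Wiring.sum_enum_all {M : Type*} [AddCommMonoid M] (N : Wiring ι)
    (g : Fin N.wires → M) : ∑ v, ∑ a, g (N.enum v a).1 = ∑ e, g e := by
  simp only [N.sum_enum]
  exact Finset.sum_fiberwise univ N.dst g

end wiring

variable {m : ℕ}

/-- the wiring, as a network for matrices -/
noncomputable abbrev Wiring.toNet (N : Wiring (Fin m × Fin m)) : Net ℚ m where
  size := N.size
  arity := N.fanIn
  src v a := N.src (N.enum v a).1
  coef _ _ := 0
  acyclic v a u h := by
    have := N.acyclic (N.enum v a).1 u h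
    rwa [N.enum_dst v a] at this

theorem Wiring.toNet_numWires (N : Wiring (Fin m × Fin m)) : N.toNet.numWires = N.wires := by
  unfold Net.numWires
  have h1 := N.sum_enum_all fun _ => 1
  simp only [Finset.sum_const, Finset.card_univ, Fintype.card_fin, smul_eq_mul, mul_one] at h1
  exact h1

theorem Wiring.toNet_fanOut (N : Wiring (Fin m × Fin m)) (u : Fin N.size) :
    ∑ v, (univ.filter fun a => N.toNet.src v a = Sum.inr u).card =
      (univ.filter fun e => N.src e = Sum.inr u).card := by
  rw [card_filter, ← N.sum_enum_all fun e => if N.src e = Sum.inr u then 1 else 0]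
  refine Finset.sum_congr rfl fun v _ => ?_
  rw [card_filter]

theorem Wiring.toNet_path (N : Wiring (Fin m × Fin m)) (l : List (Fin N.size))
    (hl : l.IsChain fun u v => ∃ a, N.toNet.src v a = Sum.inr u) : N.IsPath l := by
  refine hl.imp fun u v ⟨a, ha⟩ => ⟨(N.enum v a).1, ha, N.enum_dst v a⟩

theorem card_filter_equiv {α β γ : Type*} [Fintype α] [Fintype β] [DecidableEq γ] (e : α ≃ β)
    (f : β → γ) (x : γ) : (univ.filter fun a => f (e a) = x).card =
      (univ.filter fun b => f b = x).card := by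
  simp only [card_filter]
  exact Equiv.sum_comp e fun b => if f b = x then 1 else 0

/-- a source which is reached and is not a gate from `K` -/
def Live {ι : Type*} {n : ℕ} (Rd : Set (ι ⊕ Fin n)) (K : Finset (Fin n)) (s : ι ⊕ Fin n) : Prop :=
  s ∈ Rd ∧ ∀ u ∈ K, s ≠ Sum.inr u

/-- What has to be known about a wiring: for every set `G` of entries, if the gates in `K` are
blocked, and `Rd` contains all entries and gates which can be reached from `G`, then there is an
algorithm for matrix multiplication, and a set of matrices which are zero outside `G` and span a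
space of dimension at least `G.card - K.card`, such that only products which can be reached do not
vanish on these matrices. -/
def Rich (F : Type*) [Field F] {κ : Type*} [Fintype κ] (N : Wiring (Fin m × Fin m))
    (out : κ → (Fin m × Fin m) ⊕ Fin N.size) : Prop :=
  ∀ (G : Finset (Fin m × Fin m)) (Rd : Set ((Fin m × Fin m) ⊕ Fin N.size))
    (K : Finset (Fin N.size)),
    (∀ p ∈ G, Sum.inl p ∈ Rd) →
    (∀ e, Live Rd K (N.src e) → Sum.inr (N.dst e) ∈ Rd) →
    ∃ (left right : κ → Matrix (Fin m) (Fin m) F → F) (W : κ → Matrix (Fin m) (Fin m) F)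
      (Δ : Set (Matrix (Fin m) (Fin m) F)), IsAlg left right W ∧
      (∀ D ∈ Δ, ∀ p : Fin m × Fin m, p ∉ G → D p.1 p.2 = 0) ∧
      G.card ≤ Module.finrank F (Submodule.span F Δ) + K.card ∧
      ∀ k ∈ alive left Δ, Live Rd K (out k)

theorem rowSp_span {F : Type*} [Field F] (Δ : Set (Matrix (Fin m) (Fin m) F)) :
    rowSp (Submodule.span F Δ : Set (Matrix (Fin m) (Fin m) F)) ≤ rowSp Δ := by
  refine Submodule.span_le.2 ?_
  rintro v ⟨A, hA, i, rfl⟩
  induction hA using Submodule.span_induction with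
  | mem A h => exact Submodule.subset_span ⟨A, h, i, rfl⟩
  | zero => exact Submodule.zero_mem _
  | add A B _ _ hA hB => exact Submodule.add_mem _ hA hB
  | smul c A _ hA => exact Submodule.smul_mem _ c hA

universe u

/-- The abstract theorem. -/
theorem shallow_abs (c h L : ℕ) : ∃ m₀ : ℕ, ∀ (F : Type u) [Field F] (m : ℕ), m₀ ≤ m →
    ∀ (κ : Type) [Fintype κ] (N : Wiring (Fin m × Fin m))
      (out : κ → (Fin m × Fin m) ⊕ Fin N.size), Rich F N out → N.wires ≤ c * m ^ 2 →
      (∀ l, N.IsPath l → l.countP (fun v => 2 ≤ N.uses out v) ≤ h) →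
      L * m ^ 2 < Fintype.card κ := by
  obtain ⟨c', hc'⟩ : ∃ c', c' = c + L + 1 := ⟨_, rfl⟩
  have hc0 : 0 < c' := by omega
  obtain ⟨Y, hY⟩ := mid_cost c' (16 * (h + 1)) h
    (fun x => 32 * c' * (4 * c' * (1 + (2 * x) ^ h)))
  refine ⟨2 * (4 * c' * (1 + (2 * Y) ^ h)) + 8, ?_⟩
  intro F _ m hm κ _ N' out' hrich hwires hpaths
  classical
  by_contra hcon
  push Not at hcon
  have hm0 : 0 < m := by omega
  obtain ⟨r, hrdef⟩ : ∃ r, r = Fintype.card κ := ⟨_, rfl⟩
  let eq := (Fintype.equivFinOfCardEq hrdef.symm).symm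
  rw [← hrdef] at hcon
  -- there is a product
  have hr : 0 < r := by
    rcases Nat.eq_zero_or_pos r with h0 | h0
    · exfalso
      obtain ⟨left, right, W, Δ, halg, -, -, -⟩ := hrich ∅ Set.univ ∅ (fun _ _ => trivial)
        (fun _ _ => trivial)
      have h1 : (1 : Matrix (Fin m) (Fin m) F) ≠ 0 := by
        have : Nonempty (Fin m) := ⟨⟨0, hm0⟩⟩
        exact one_ne_zero
      have h2 := key_one halg h1
      have h3 : (alive left {(1 : Matrix (Fin m) (Fin m) F)}).card ≤
          (univ : Finset κ).card := card_le_card (subset_univ _)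
      rw [card_univ, ← hrdef] at h3
      omega
    · exact h0
  let N := N'.toNet
  let left : Fin r → (Fin m × Fin m) ⊕ Fin N.size := fun l => out' (eq l)
  have hn : m * m = m ^ 2 := (sq m).symm
  have hwt : (N.circ left hr).numWires ≤ c' * (m * m) := by
    rw [circ_numWires, hn, hc', show N.numWires = N'.wires from N'.toNet_numWires]
    have : (c + L + 1) * m ^ 2 = c * m ^ 2 + L * m ^ 2 + m ^ 2 := by ring
    omega
  have hfan : ∀ u, N.fanOut left u = N'.uses out' u := by
    intro u
    unfold Net.fanOut Wiring.uses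
    rw [show ∑ v, (univ.filter fun a => N.src v a = Sum.inr u).card = _ from N'.toNet_fanOut u,
      show (univ.filter fun l => left l = Sum.inr u).card = _ from
        card_filter_equiv eq out' (Sum.inr u)]
  have hpaths' : ∀ l : List (Fin N.size), l.IsChain (fun u v => ∃ a, N.src v a = Sum.inr u) →
      l.countP (fun v => 2 ≤ N.fanOut left v) ≤ h := by
    intro l hl
    simp only [hfan]
    exact hpaths l (N'.toNet_path l hl)
  obtain ⟨x, y, Rc, cost, hx1, hxY, hxy, hcost, hG⟩ := hY (m * m) (N.circ left hr) hwt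
    (sharing_le N left hr hpaths')
  -- the number of live entries in each column
  obtain ⟨X, hX⟩ : ∃ X, X = (2 * x) ^ h := ⟨_, rfl⟩
  obtain ⟨q, hq⟩ : ∃ q, q = 4 * c' * (1 + X) := ⟨_, rfl⟩
  have hqY : 2 * q ≤ m := by
    have h1 : X ≤ (2 * Y) ^ h := by
      rw [hX]
      gcongr
    have h2 : q ≤ 4 * c' * (1 + (2 * Y) ^ h) := by
      rw [hq]
      gcongr
    omega
  rw [← hX, ← hq] at hxy
  have hq1 : 1 ≤ q := by
    rw [hq]
    exact Nat.succ_le_of_lt (by positivity)
  obtain ⟨t, ht⟩ : ∃ t, t = m / (2 * q) := ⟨_, rfl⟩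
  have hq2 : 0 < 2 * q := by omega
  have ht1 : 1 ≤ t := by
    rw [ht, Nat.le_div_iff_mul_le hq2, one_mul]
    exact hqY
  have ht2 : t * (2 * q) ≤ m := by
    rw [ht]
    exact Nat.div_mul_le_self _ _
  have ht3 : m < (t + 1) * (2 * q) := by
    rw [← Nat.div_lt_iff_lt_mul hq2, ht]
    exact Nat.lt_succ_self _
  have htm : t ≤ m := le_trans (Nat.le_mul_of_pos_right t hq2) ht2
  have htQ : m ≤ 4 * q * t := by
    have h1 : (t + 1) * (2 * q) ≤ (t + t) * (2 * q) := Nat.mul_le_mul_right _ (by omega)
    have h2 : (t + t) * (2 * q) = 4 * q * t := by ring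
    omega
  -- the live entries
  obtain ⟨wt, hwtdef⟩ : ∃ wt : Fin m × Fin m → ℕ, wt = fun p =>
    inFan (N.circ left hr) (finProdFinEquiv p) + 16 * c' * cost (finProdFinEquiv p) := ⟨_, rfl⟩
  obtain ⟨G, hGcard, hGcol, hGw⟩ := exists_G wt t htm
  have hsumall : ∀ f : Fin (m * m) → ℕ, ∑ p : Fin m × Fin m, f (finProdFinEquiv p) = ∑ g, f g :=
    fun f => Equiv.sum_comp finProdFinEquiv f
  have hcost16 := arith4 hcost
  have hall : ∑ p, wt p ≤ 2 * c' * (m * m) := by
    have h1 : ∑ p, wt p = ∑ g, inFan (N.circ left hr) g + 16 * c' * ∑ g, cost g := by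
      rw [hwtdef, sum_add_distrib, ← mul_sum, hsumall, hsumall]
    have h2 := (sum_inFan_le (N.circ left hr)).trans hwt
    have h3 : 16 * c' * ∑ g, cost g ≤ c' * (m * m) := by
      calc 16 * c' * ∑ g, cost g = c' * (16 * ∑ g, cost g) := by ring
        _ ≤ _ := Nat.mul_le_mul_left _ hcost16
    have h4 : 2 * c' * (m * m) = c' * (m * m) + c' * (m * m) := by ring
    omega
  have hsplit : ∑ p ∈ G, wt p = ∑ p ∈ G, inFan (N.circ left hr) (finProdFinEquiv p) +
      16 * c' * ∑ p ∈ G, cost (finProdFinEquiv p) := by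
    rw [hwtdef, sum_add_distrib, ← mul_sum]
  rw [hsplit] at hGw
  obtain ⟨hGin, hGcost⟩ := arith3 hc0 hm0 hall hGw
  obtain ⟨ℓ, hℓ, hflow, hi, hkill, hhi⟩ := hG (G.map finProdFinEquiv.toEmbedding)
  rw [inWires_eq, sum_map] at hflow
  rw [sum_map] at hkill
  simp only [Equiv.coe_toEmbedding] at hflow hkill
  -- few gates are killed
  have hhi' : 8 * hi ≤ t * m := arith2 hc0 hq1 htQ hxy hhi
  have hkill' : 2 * (killed N Rc ℓ).card ≤ t * m := by
    have h1 := card_killed N Rc ℓ
    have h2 : 8 ≤ t * m := by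
      calc 8 ≤ m := by omega
        _ = 1 * m := (one_mul m).symm
        _ ≤ t * m := Nat.mul_le_mul_right _ ht1
    omega
  -- the reached entries and gates
  let Rd : Set ((Fin m × Fin m) ⊕ Fin N'.size) := {s | Sum.elim (fun p => p ∈ G)
    (fun v => ℓ (Fin.castAdd r v) ≠ 0) s}
  have hswt : ∀ s, Live (n := N'.size) Rd (killed N Rc ℓ) s →
      swt (G.map finProdFinEquiv.toEmbedding) Rc ℓ (cs N.size r s) ≠ 0 := by
    rintro (p | u) ⟨hs1, hs2⟩
    · have hp' : finProdFinEquiv p ∈ G.map finProdFinEquiv.toEmbedding :=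
        mem_map_of_mem finProdFinEquiv.toEmbedding hs1
      simp only [cs, Sum.elim_inl, swt]
      rw [if_pos hp']
      exact one_ne_zero
    · have h0 : ℓ (Fin.castAdd r u) ≠ 0 := hs1
      have h1 : Fin.castAdd r u ∉ Rc := fun hR =>
        hs2 u (mem_filter.2 ⟨mem_univ _, hR, h0⟩) rfl
      simp only [cs, Sum.elim_inr, swt]
      rw [if_neg h1]
      exact h0
  obtain ⟨lf, rt, W, Δ, halg, hsupp, hdim, hal⟩ := hrich G Rd (killed N Rc ℓ) (fun p hp => hp)
    (by
      intro e he
      show ℓ (Fin.castAdd r (N'.dst e)) ≠ 0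
      rw [hℓ, sum_left N left hr (swt (G.map finProdFinEquiv.toEmbedding) Rc ℓ)]
      have he' : e ∈ univ.filter fun e' => N'.dst e' = N'.dst e := mem_filter.2 ⟨mem_univ _, rfl⟩
      intro h0
      have h1 := Finset.sum_eq_zero_iff.1 h0 ((N'.enum (N'.dst e)).symm ⟨e, he'⟩) (mem_univ _)
      refine hswt (N'.src e) he ?_
      have h2 : N.src (N'.dst e) ((N'.enum (N'.dst e)).symm ⟨e, he'⟩) = N'.src e := by
        show N'.src (N'.enum (N'.dst e) ((N'.enum (N'.dst e)).symm ⟨e, he'⟩)).1 = _
        rw [Equiv.apply_symm_apply]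
      rw [← h2]
      exact h1)
  have hrow := finrank_le_rowSp (Submodule.span F Δ) G (fun A hA => by
    induction hA using Submodule.span_induction with
    | mem A h => exact hsupp A h
    | zero => exact fun p _ => rfl
    | add A B _ _ hA hB =>
      intro p hp
      rw [Matrix.add_apply, hA p hp, hB p hp, add_zero]
    | smul c A _ hA =>
      intro p hp
      rw [Matrix.smul_apply, hA p hp, smul_zero]) t hGcol
  have hrow' : Module.finrank F (Submodule.span F Δ) ≤ t * Module.finrank F (rowSp Δ) :=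
    hrow.trans (Nat.mul_le_mul_left _ (Submodule.finrank_mono (rowSp_span Δ)))
  have halive := rowSp_le halg Δ
  have hal' : (alive lf Δ).card ≤
      ∑ v ∈ univ.filter (fun v => (N.circ left hr).fanOut v = 0), ℓ v := by
    have h1 : (alive lf Δ).card ≤ (univ.filter fun l => ℓ (Fin.natAdd N.size l) ≠ 0).card := by
      refine card_le_card_of_injOn eq.symm (fun k hk => ?_) (fun a _ b _ h => eq.symm.injective h)
      rw [mem_coe, mem_filter]
      refine ⟨mem_univ _, ?_⟩
      rw [hℓ, sum_right N left hr (swt (G.map finProdFinEquiv.toEmbedding) Rc ℓ)]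
      show swt _ Rc ℓ (cs N.size r (out' (eq (eq.symm k)))) ≠ 0
      rw [Equiv.apply_symm_apply]
      exact hswt _ (hal k hk)
    refine h1.trans ?_
    rw [card_filter]
    calc ∑ l : Fin r, (if ℓ (Fin.natAdd N.size l) ≠ 0 then 1 else 0)
        ≤ ∑ l : Fin r, ℓ (Fin.natAdd N.size l) := by
          refine Finset.sum_le_sum fun l _ => ?_
          split_ifs <;> omega
      _ = ∑ v ∈ univ.image (Fin.natAdd N.size : Fin r → Fin (N.size + r)), ℓ v := by
          rw [Finset.sum_image]
          intro a _ b _ h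
          exact Fin.natAdd_injective _ _ h
      _ ≤ _ := by
          refine Finset.sum_le_sum_of_subset fun v hv => ?_
          obtain ⟨l, -, rfl⟩ := mem_image.1 hv
          exact mem_filter.2 ⟨mem_univ _, fanOut_right N left hr l⟩
  have hsink := sink_flow (N.circ left hr) (G.map finProdFinEquiv.toEmbedding) Rc ℓ hℓ
  rw [inWires_eq, sum_map] at hsink
  simp only [Equiv.coe_toEmbedding] at hsink
  rw [← hX] at hflow
  refine arith (ρ := Module.finrank F (rowSp Δ)) hm0 ht1 hq1 ht2 hq hGin ?_ ?_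
  · exact halive.trans (hal'.trans (hsink.trans (Nat.add_le_add_left hflow _)))
  · rw [hGcard] at hdim
    have h1 : t * m ≤ t * Module.finrank F (rowSp Δ) +
        (killed N Rc ℓ).card := hdim.trans (Nat.add_le_add_right hrow' _)
    omega

end Pool.Agent.H719.OS
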