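import Mathlib

set_option autoImplicit false

/-!
# Algorithms for matrix multiplication, the second matrix being processed arbitrarily
-/

namespace Pool.Agent.H719.OS

open Finset Matrix

variable {F : Type*} [Field F] {m : ℕ}

/-- An algorithm with products indexed by `ι` for the product of two `m × m` matrices: the `l`-th
product multiplies the value `left l A`, which depends on the first matrix only, by the value
`right l B`, which depends on the second matrix only, and every entry of `A * B` is a fixed linear
combination of the products. -/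
def IsAlg {ι : Type*} [Fintype ι] (left right : ι → Matrix (Fin m) (Fin m) F → F)
    (W : ι → Matrix (Fin m) (Fin m) F) : Prop :=
  ∀ A B, A * B = ∑ l, (left l A * right l B) • W l

open Classical in
/-- **Key lemma.** If `A a` are matrices and the rows `A a (i a)` are linearly independent, then at
least `m` times as many products do not vanish on all of the matrices `A a`. -/
theorem key {ι : Type*} [Fintype ι] {left right : ι → Matrix (Fin m) (Fin m) F → F}
    {W : ι → Matrix (Fin m) (Fin m) F} (h : IsAlg left right W) {κ : Type*} [Fintype κ]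
    (A : κ → Matrix (Fin m) (Fin m) F) (i : κ → Fin m)
    (hli : LinearIndependent F (fun a => A a (i a))) :
    Fintype.card κ * m ≤ (univ.filter fun l => ∃ a, left l (A a) ≠ 0).card := by
  classical
  let w : ι → κ → Fin m → F := fun l a => left l (A a) • W l (i a)
  let S : Finset (κ → Fin m → F) := (univ.filter fun l => ∃ a, left l (A a) ≠ 0).image w
  have htop : Submodule.span F (S : Set (κ → Fin m → F)) = ⊤ := by
    rw [eq_top_iff]
    rintro T -
    -- a matrix `B` with `A a (i a) ᵥ* B = T a`
    obtain ⟨B', hB'⟩ : ∃ B' : (Fin m → F) →ₗ[F] (Fin m → F), ∀ a, B' (A a (i a)) = T a := by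
      let b := Module.Basis.extend hli.linearIndepOn_id
      refine ⟨b.constr F fun v => if hv : ∃ a, A a (i a) = v.1 then T hv.choose else 0,
        fun a => ?_⟩
      have hmem : A a (i a) ∈ hli.linearIndepOn_id.extend (Set.subset_univ _) :=
        Module.Basis.subset_extend hli.linearIndepOn_id ⟨a, rfl⟩
      have hb : b ⟨A a (i a), hmem⟩ = A a (i a) := Module.Basis.extend_apply_self _ _
      have h2 := b.constr_basis F (fun v => if hv : ∃ a, A a (i a) = v.1 then T hv.choose else 0)
        ⟨A a (i a), hmem⟩
      rw [hb] at h2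
      rw [h2]
      have hex : ∃ a', A a' (i a') = A a (i a) := ⟨a, rfl⟩
      rw [dif_pos hex]
      congr 1
      exact hli.injective hex.choose_spec
    have hT : T = ∑ l, right l (LinearMap.toMatrix' B')ᵀ • w l := by
      funext a
      have h3 := congrFun (h (A a) (LinearMap.toMatrix' B')ᵀ) (i a)
      have h4 : (A a * (LinearMap.toMatrix' B')ᵀ) (i a) = B' (A a (i a)) := by
        have h5 : B' (A a (i a)) = (LinearMap.toMatrix' B').mulVec (A a (i a)) := by
          rw [LinearMap.toMatrix'_mulVec]
        rw [h5]
        funext k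
        simp only [Matrix.mul_apply, Matrix.mulVec, dotProduct, Matrix.transpose_apply]
        exact Finset.sum_congr rfl fun _ _ => mul_comm _ _
      rw [h4, hB'] at h3
      rw [h3, Finset.sum_apply]
      funext k
      rw [Matrix.sum_apply, Finset.sum_apply]
      refine Finset.sum_congr rfl fun l _ => ?_
      simp only [Pi.smul_apply, Matrix.smul_apply, smul_eq_mul, w]
      ring
    rw [hT]
    refine Submodule.sum_mem _ fun l _ => Submodule.smul_mem _ _ ?_
    by_cases hl : ∃ a, left l (A a) ≠ 0
    · exact Submodule.subset_span (mem_coe.2 (mem_image.2 ⟨l, mem_filter.2 ⟨mem_univ _, hl⟩, rfl⟩))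
    · push Not at hl
      have : w l = 0 := by
        funext a
        simp only [w, hl a, zero_smul, Pi.zero_apply]
      rw [this]
      exact Submodule.zero_mem _
  have h1 := finrank_span_finset_le_card (R := F) S
  rw [Set.finrank, htop, finrank_top] at h1
  have h2 : Module.finrank F (κ → Fin m → F) = Fintype.card κ * m := by
    rw [Module.finrank_pi_fintype]
    simp
  rw [h2] at h1
  exact h1.trans card_image_le

/-- an information set of a subspace -/
theorem exists_info {k : ℕ} (Y : Submodule F (Fin k → F)) : ∃ Z : Finset (Fin k),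
    Z.card ≤ Module.finrank F Y ∧ ∀ v ∈ Y, (∀ j ∈ Z, v j = 0) → v = 0 := by
  classical
  have hne : ((univ : Finset (Finset (Fin k))).filter fun Z =>
      ∀ v ∈ Y, (∀ j ∈ Z, v j = 0) → v = 0).Nonempty :=
    ⟨univ, mem_filter.2 ⟨mem_univ _, fun v _ h => funext fun j => h j (mem_univ _)⟩⟩
  obtain ⟨Z, hZ, hmin⟩ := exists_min_image _ Finset.card hne
  rw [mem_filter] at hZ
  refine ⟨Z, ?_, hZ.2⟩
  have hv : ∀ j : {j // j ∈ Z}, ∃ v ∈ Y, v j.1 ≠ 0 ∧ ∀ j' ∈ Z, j' ≠ j.1 → v j' = 0 := by
    rintro ⟨j, hj⟩
    have h1 : Z.erase j ∉ (univ : Finset (Finset (Fin k))).filter fun Z =>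
        ∀ v ∈ Y, (∀ j ∈ Z, v j = 0) → v = 0 := by
      intro h2
      have := hmin _ h2
      have h3 := card_erase_lt_of_mem hj
      omega
    rw [mem_filter] at h1
    push Not at h1
    obtain ⟨v, hvY, hv0, hv⟩ := h1 (mem_univ _)
    refine ⟨v, hvY, fun h0 => hv ?_, fun j' hj' hne => hv0 j' (mem_erase.2 ⟨hne, hj'⟩)⟩
    refine hZ.2 v hvY fun j' hj' => ?_
    by_cases h : j' = j
    · rw [h]; exact h0
    · exact hv0 j' (mem_erase.2 ⟨h, hj'⟩)
  choose v hvY hv1 hv2 using hv
  have hli : LinearIndependent F (fun j => (⟨v j, hvY j⟩ : Y)) := by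
    rw [Fintype.linearIndependent_iff]
    intro c hc j
    have h1 := congrArg (fun y : Y => (y : Fin k → F) j.1) hc
    simp only [Submodule.coe_sum, Submodule.coe_smul, Finset.sum_apply, Pi.smul_apply, smul_eq_mul,
      ZeroMemClass.coe_zero, Pi.zero_apply] at h1
    rw [Finset.sum_eq_single j] at h1
    · exact (mul_eq_zero.1 h1).resolve_right (hv1 j)
    · intro j' _ hne
      rw [hv2 j' j.1 j.2 fun h => hne (Subtype.ext h.symm), mul_zero]
    · intro h
      exact absurd (mem_univ _) h
  have := hli.fintype_card_le_finrank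
  rwa [Fintype.card_coe] at this

/-- the space spanned by the rows of some matrices -/
def rowSp (S : Set (Matrix (Fin m) (Fin m) F)) : Submodule F (Fin m → F) :=
  Submodule.span F {v | ∃ A ∈ S, ∃ i, v = A i}

open Classical in
/-- the products which do not vanish on a set of matrices -/
noncomputable def alive {ι : Type*} [Fintype ι] (left : ι → Matrix (Fin m) (Fin m) F → F)
    (S : Set (Matrix (Fin m) (Fin m) F)) : Finset ι :=
  univ.filter fun l => ∃ A ∈ S, left l A ≠ 0

/-- a nonzero matrix is used by at least `m` products -/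
theorem key_one {ι : Type*} [Fintype ι] {left right : ι → Matrix (Fin m) (Fin m) F → F}
    {W : ι → Matrix (Fin m) (Fin m) F} (h : IsAlg left right W) {A : Matrix (Fin m) (Fin m) F}
    (hA : A ≠ 0) : m ≤ (alive left {A}).card := by
  classical
  obtain ⟨i, hi⟩ : ∃ i, A i ≠ 0 := by
    by_contra hcon
    push Not at hcon
    exact hA (funext hcon)
  have := key h (κ := Unit) (fun _ => A) (fun _ => i) (by
    rw [linearIndependent_unique_iff]
    exact hi)
  rw [Fintype.card_unit, one_mul] at this
  refine this.trans (card_le_card fun l hl => ?_)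
  rw [mem_filter] at hl
  exact mem_filter.2 ⟨mem_univ _, A, rfl, hl.2.choose_spec⟩

theorem exists_rows (S : Set (Matrix (Fin m) (Fin m) F)) :
    ∃ (κ : Type) (_ : Fintype κ) (A : κ → Matrix (Fin m) (Fin m) F) (i : κ → Fin m),
      Fintype.card κ = Module.finrank F (rowSp S) ∧ (∀ a, A a ∈ S) ∧
      LinearIndependent F (fun a => A a (i a)) := by
  classical
  obtain ⟨b, hb, hspan, hli⟩ := exists_linearIndependent F {v : Fin m → F | ∃ A ∈ S, ∃ i, v = A i}
  have hfin : b.Finite := hli.setFinite
  have : Fintype b := hfin.fintype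
  have hcard : Fintype.card b = Module.finrank F (rowSp S) := by
    rw [rowSp, ← hspan]
    exact (finrank_span_set_eq_card hli).symm ▸ (by rw [Set.toFinset_card])
  choose A hA i hi using fun v : b => hb v.2
  let e := Fintype.equivFin b
  refine ⟨Fin (Fintype.card b), inferInstance, fun a => A (e.symm a), fun a => i (e.symm a),
    ?_, fun a => hA _, ?_⟩
  · rw [Fintype.card_fin, hcard]
  · have h1 : (fun a => A (e.symm a) (i (e.symm a))) = (fun v : b => (v : Fin m → F)) ∘ e.symm := by
      funext a
      exact (hi _).symm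
    rw [h1]
    exact hli.comp _ e.symm.injective

theorem rowSp_le {ι : Type*} [Fintype ι] {left right : ι → Matrix (Fin m) (Fin m) F → F}
    {W : ι → Matrix (Fin m) (Fin m) F} (h : IsAlg left right W)
    (S : Set (Matrix (Fin m) (Fin m) F)) :
    Module.finrank F (rowSp S) * m ≤ (alive left S).card := by
  classical
  obtain ⟨κ, _, A, i, hκ, hA, hli⟩ := exists_rows S
  rw [← hκ]
  refine (key h A i hli).trans (card_le_card fun l hl => ?_)
  rw [mem_filter] at hl
  obtain ⟨-, a, ha⟩ := hl
  exact mem_filter.2 ⟨mem_univ _, A a, hA a, ha⟩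

/-- If all matrices in a subspace are supported on `G`, and all columns of `G` have at most `t`
elements, then the dimension is at most `t` times the dimension of the space of the rows. -/
theorem finrank_le_rowSp (Λ : Submodule F (Matrix (Fin m) (Fin m) F)) (G : Finset (Fin m × Fin m))
    (hG : ∀ A ∈ Λ, ∀ p : Fin m × Fin m, p ∉ G → A p.1 p.2 = 0) (t : ℕ)
    (ht : ∀ k, (univ.filter fun i => (i, k) ∈ G).card ≤ t) :
    Module.finrank F Λ ≤ t * Module.finrank F (rowSp (Λ : Set (Matrix (Fin m) (Fin m) F))) := by
  classical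
  obtain ⟨Z, hZ, hinj⟩ := exists_info (rowSp (Λ : Set (Matrix (Fin m) (Fin m) F)))
  let P : Finset (Fin m × Fin m) := G.filter fun p => p.2 ∈ Z
  let f : Λ →ₗ[F] ({p // p ∈ P} → F) :=
    { toFun := fun A p => A.1 p.1.1 p.1.2
      map_add' := fun A B => rfl
      map_smul' := fun c A => rfl }
  have hf : Function.Injective f := by
    rw [injective_iff_map_eq_zero]
    intro A hA
    refine Subtype.ext (funext fun i => ?_)
    refine hinj (A.1 i) (Submodule.subset_span ⟨A.1, A.2, i, rfl⟩) fun k hk => ?_
    by_cases hp : (i, k) ∈ G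
    · exact congrFun hA ⟨(i, k), mem_filter.2 ⟨hp, hk⟩⟩
    · exact hG A.1 A.2 (i, k) hp
  have h1 := LinearMap.finrank_le_finrank_of_injective hf
  rw [Module.finrank_fintype_fun_eq_card, Fintype.card_coe] at h1
  refine h1.trans ?_
  have h2 : P.card ≤ ∑ k ∈ Z, (univ.filter fun i => (i, k) ∈ G).card := by
    have h3 := card_eq_sum_card_fiberwise (s := P) (f := fun p : Fin m × Fin m => p.2) (t := Z)
      (fun p hp => (mem_filter.1 hp).2)
    rw [h3]
    refine sum_le_sum fun k _ => ?_
    refine card_le_card_of_injOn (fun p => p.1) (fun p hp => ?_) fun p hp q hq hpq => ?_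
    · rw [mem_coe, mem_filter, mem_filter] at hp
      rw [mem_coe, mem_filter]
      refine ⟨mem_univ _, ?_⟩
      have := hp.1.1
      rw [← hp.2]
      exact this
    · rw [mem_coe, mem_filter] at hp hq
      exact Prod.ext hpq (hp.2.trans hq.2.symm)
  refine h2.trans ((sum_le_card_nsmul _ _ t fun k _ => ht k).trans ?_)
  rw [smul_eq_mul, mul_comm]
  exact Nat.mul_le_mul_left _ hZ

end Pool.Agent.H719.OS
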