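import Pool.Agent.H719.OS.Abs

set_option autoImplicit false
set_option linter.unusedSectionVars false

/-!
# Bypassing the gates with one incoming wire
-/

namespace Pool.Agent.H719.OS

open Finset Matrix

variable {ι : Type*}

/-- a potential which counts the gates of some kind on the paths -/
theorem Wiring.exists_pot (N : Wiring ι) (p : Fin N.size → Bool) (h : ℕ)
    (H : ∀ l, N.IsPath l → l.countP p ≤ h) :
    ∃ D : Fin N.size → ℕ, (∀ v, D v ≤ h) ∧
      ∀ e u, N.src e = Sum.inr u → D u + (if p (N.dst e) then 1 else 0) ≤ D (N.dst e) := by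
  classical
  let R : Fin N.size → Fin N.size → Prop := fun x y => ∃ e, N.src e = Sum.inr y ∧ N.dst e = x
  let S : Fin N.size → Set ℕ := fun v => {n | ∃ t, List.IsChain R (v :: t) ∧ n = (v :: t).countP p}
  have hS : ∀ v, (S v).Nonempty := fun v => ⟨_, [], List.IsChain.singleton _, rfl⟩
  have hle : ∀ v, ∀ n ∈ S v, n ≤ h := by
    rintro v n ⟨t, ht, rfl⟩
    have h1 := H (v :: t).reverse (by
      unfold Wiring.IsPath
      rw [List.isChain_reverse]
      exact ht)
    rwa [List.countP_reverse] at h1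
  have hbdd : ∀ v, BddAbove (S v) := fun v => ⟨h, hle v⟩
  refine ⟨fun v => sSup (S v), fun v => hle v _ (Nat.sSup_mem (hS v) (hbdd v)), fun e u he => ?_⟩
  obtain ⟨t, ht, hn⟩ := Nat.sSup_mem (hS u) (hbdd u)
  have h1 : (N.dst e :: u :: t).countP p ∈ S (N.dst e) :=
    ⟨u :: t, List.isChain_cons_cons.2 ⟨⟨e, he, rfl⟩, ht⟩, rfl⟩
  have h2 := le_csSup (hbdd (N.dst e)) h1
  rw [List.countP_cons] at h2
  show sSup (S u) + _ ≤ sSup (S (N.dst e))
  rw [hn]
  exact h2

theorem Wiring.countP_le_of_pot (N : Wiring ι) (p : Fin N.size → Bool) (h : ℕ)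
    (D : Fin N.size → ℕ) (hD : ∀ v, D v ≤ h)
    (hD' : ∀ e u, N.src e = Sum.inr u → D u + (if p (N.dst e) then 1 else 0) ≤ D (N.dst e)) :
    ∀ (t : List (Fin N.size)) (v : Fin N.size), N.IsPath (v :: t) → t.countP p + D v ≤ h := by
  intro t
  induction t with
  | nil =>
    intro v _
    rw [List.countP_nil, zero_add]
    exact hD v
  | cons w t ih =>
    intro v hv
    unfold Wiring.IsPath at hv
    obtain ⟨e, he, rfl⟩ := (List.isChain_cons_cons.1 hv).1
    have h1 := ih (N.dst e) hv.tail
    have h2 := hD' e v he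
    rw [List.countP_cons]
    omega

theorem Wiring.dst_choose (N : Wiring ι) (v : Fin N.size) (h : N.fanIn v = 1) :
    N.dst (Finset.card_eq_one.1 h).choose = v := by
  have h1 := (Finset.card_eq_one.1 h).choose_spec
  have h2 := (Finset.ext_iff.1 h1 (Finset.card_eq_one.1 h).choose).2 (mem_singleton_self _)
  exact (mem_filter.1 h2).2

/-- the first input or gate with a number of incoming wires different from one, going backwards -/
noncomputable def Wiring.root (N : Wiring ι) (v : Fin N.size) : ι ⊕ Fin N.size :=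
  if h : N.fanIn v = 1 then
    match _hs : N.src (Finset.card_eq_one.1 h).choose with
    | Sum.inl i => Sum.inl i
    | Sum.inr u => N.root u
  else Sum.inr v
termination_by v.val
decreasing_by
  have h1 := N.acyclic _ u _hs
  rw [N.dst_choose v h] at h1
  exact h1

/-- the root of an input or gate -/
noncomputable def Wiring.rt (N : Wiring ι) : ι ⊕ Fin N.size → ι ⊕ Fin N.size :=
  Sum.elim Sum.inl N.root

theorem Wiring.root_of_ne (N : Wiring ι) (v : Fin N.size) (h : N.fanIn v ≠ 1) :
    N.root v = Sum.inr v := by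
  rw [Wiring.root, dif_neg h]

theorem Wiring.root_of_eq (N : Wiring ι) (e : Fin N.wires) (h : N.fanIn (N.dst e) = 1) :
    N.root (N.dst e) = N.rt (N.src e) := by
  have h1 := (Finset.card_eq_one.1 h).choose_spec
  have h2 : e = (Finset.card_eq_one.1 h).choose := by
    have h4 : e ∈ univ.filter fun e' => N.dst e' = N.dst e := mem_filter.2 ⟨mem_univ _, rfl⟩
    exact mem_singleton.1 ((Finset.ext_iff.1 h1 e).1 h4)
  rw [Wiring.root, dif_pos h]
  have h3 : N.rt (N.src e) = N.rt (N.src (Finset.card_eq_one.1 h).choose) := by rw [← h2]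
  rw [h3]
  split
  · rename_i i hi
    rw [hi]
    rfl
  · rename_i u hu
    rw [hu]
    rfl

theorem Wiring.root_prop (N : Wiring ι) (D : Fin N.size → ℕ)
    (hD : ∀ e u, N.src e = Sum.inr u → D u ≤ D (N.dst e)) :
    ∀ n (hn : n < N.size) u, N.root ⟨n, hn⟩ = Sum.inr u →
      u.1 ≤ n ∧ N.fanIn u ≠ 1 ∧ D u ≤ D ⟨n, hn⟩ := by
  intro n
  induction n using Nat.strong_induction_on with
  | _ n ih =>
    intro hn u hu
    by_cases h1 : N.fanIn ⟨n, hn⟩ = 1
    · obtain ⟨e, he⟩ := card_eq_one.1 h1
      have hde : N.dst e = ⟨n, hn⟩ := by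
        have : e ∈ univ.filter fun e => N.dst e = ⟨n, hn⟩ := by
          rw [he]
          exact mem_singleton_self e
        exact (mem_filter.1 this).2
      rw [← hde, N.root_of_eq e (by rw [hde]; exact h1)] at hu
      cases hs : N.src e with
      | inl i =>
        rw [hs] at hu
        cases hu
      | inr w =>
        rw [hs] at hu
        have hw := N.acyclic e w hs
        rw [hde] at hw
        obtain ⟨a1, a2, a3⟩ := ih w.1 hw w.2 u hu
        have h2 := hD e w hs
        rw [hde] at h2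
        exact ⟨a1.trans (le_of_lt hw), a2, a3.trans h2⟩
    · rw [N.root_of_ne _ h1] at hu
      rw [← Sum.inr.inj hu]
      exact ⟨le_refl _, h1, le_refl _⟩

theorem Wiring.rt_prop (N : Wiring ι) (D : Fin N.size → ℕ)
    (hD : ∀ e u, N.src e = Sum.inr u → D u ≤ D (N.dst e)) (s : ι ⊕ Fin N.size) (u : Fin N.size)
    (hu : N.rt s = Sum.inr u) : ∃ w, s = Sum.inr w ∧ u ≤ w ∧ N.fanIn u ≠ 1 ∧ D u ≤ D w := by
  rcases s with i | w
  · cases hu
  · exact ⟨w, rfl, N.root_prop D hD w.1 w.2 u hu⟩

/-- gates with one incoming wire are bypassed -/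
noncomputable abbrev Wiring.redirect (N : Wiring ι) : Wiring ι where
  size := N.size
  wires := N.wires
  src e := N.rt (N.src e)
  dst := N.dst
  acyclic e u hu := by
    obtain ⟨w, hw, h1, -, -⟩ := N.rt_prop (fun _ => 0) (fun _ _ _ => le_refl _) _ u hu
    exact lt_of_le_of_lt h1 (N.acyclic e w hw)

theorem Wiring.redirect_length (N : Wiring ι) (h : ℕ)
    (H : ∀ l, N.IsPath l → l.countP (fun v => 2 ≤ N.fanIn v) ≤ h) (l : List (Fin N.size))
    (hl : N.redirect.IsPath l) : l.length ≤ h + 2 := by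
  classical
  obtain ⟨D, hDh, hD⟩ := N.exists_pot (fun v => decide (2 ≤ N.fanIn v)) h H
  have hρ := N.rt_prop D (fun e u hu => le_trans (Nat.le_add_right _ _) (hD e u hu))
  have hwire : ∀ u v, (∃ e, N.redirect.src e = Sum.inr u ∧ N.redirect.dst e = v) →
      N.fanIn u ≠ 1 ∧ 1 ≤ N.fanIn v := by
    rintro u v ⟨e, he, rfl⟩
    obtain ⟨w, hw, -, h2, -⟩ := hρ _ u he
    refine ⟨h2, ?_⟩
    exact card_pos.2 ⟨e, mem_filter.2 ⟨mem_univ _, rfl⟩⟩
  have hlen : ∀ (t : List (Fin N.size)) (v : Fin N.size), N.redirect.IsPath (v :: t) →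
      t.length ≤ t.countP (fun v => decide (2 ≤ N.fanIn v)) + 1 := by
    intro t
    induction t with
    | nil =>
      intro v _
      exact Nat.zero_le _
    | cons w t ih =>
      intro v hv
      unfold Wiring.IsPath at hv
      have h1 := hwire _ _ (List.isChain_cons_cons.1 hv).1
      have h2 := ih w hv.tail
      cases t with
      | nil =>
        rw [List.length_cons, List.length_nil]
        exact Nat.le_add_left _ _
      | cons y t' =>
        have h3 := hwire _ _ (List.isChain_cons_cons.1 hv.tail).1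
        have h4 : decide (2 ≤ N.fanIn w) = true := by
          rw [decide_eq_true_eq]
          have := h1.2
          have := h3.1
          omega
        have h5 := List.countP_cons (p := fun v => decide (2 ≤ N.fanIn v)) (a := w) (l := y :: t')
        rw [h4] at h5
        rw [if_pos rfl] at h5
        rw [h5, List.length_cons]
        omega
  cases l with
  | nil => exact Nat.zero_le _
  | cons v t =>
    have h1 := hlen t v hl
    have h2 := N.redirect.countP_le_of_pot (fun v => decide (2 ≤ N.fanIn v)) h D hDh (by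
      intro e u he
      obtain ⟨w, hw, -, -, h3⟩ := hρ _ u he
      have h4 := hD e w hw
      refine le_trans (Nat.add_le_add_right h3 _) ?_
      exact h4) t v hl
    rw [List.length_cons]
    have h3 : t.countP (fun v => decide (2 ≤ N.fanIn v)) ≤ h := le_trans (Nat.le_add_right _ _) h2
    omega

variable {m : ℕ}

theorem Rich.redirect {F : Type*} [Field F] {κ : Type*} [Fintype κ] {N : Wiring (Fin m × Fin m)}
    {out : κ → (Fin m × Fin m) ⊕ Fin N.size} (hN : Rich F N out) :
    Rich F N.redirect (fun k => N.rt (out k)) := by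
  classical
  intro G Rd' K hG hRd
  have key : ∀ s, s ∈ {s | (N.rt s = s ∧ s ∈ Rd') ∨ (N.rt s ≠ s ∧
      Live (n := N.size) Rd' K (N.rt s))} → (∀ u ∈ K, s ≠ Sum.inr u) →
      Live (n := N.size) Rd' K (N.rt s) := by
    rintro s (⟨h1, h2⟩ | ⟨-, h2⟩) h3
    · rw [h1]
      exact ⟨h2, h3⟩
    · exact h2
  obtain ⟨left, right, W, Δ, h1, h2, h3, h4⟩ := hN G
    {s | (N.rt s = s ∧ s ∈ Rd') ∨ (N.rt s ≠ s ∧ Live (n := N.size) Rd' K (N.rt s))} K
    (fun p hp => Or.inl ⟨rfl, hG p hp⟩) (by
      rintro e ⟨he1, he2⟩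
      have hlive := key _ he1 he2
      by_cases hv : N.fanIn (N.dst e) = 1
      · right
        have h5 : N.rt (Sum.inr (N.dst e)) = N.rt (N.src e) := N.root_of_eq e hv
        refine ⟨?_, ?_⟩
        · rw [h5]
          intro h6
          obtain ⟨w, hw, h7, -, -⟩ := N.rt_prop (fun _ => 0) (fun _ _ _ => le_refl _) _ _ h6
          exact absurd (lt_of_le_of_lt h7 (N.acyclic e w hw)) (lt_irrefl _)
        · rw [h5]
          exact hlive
      · left
        refine ⟨N.root_of_ne _ hv, ?_⟩
        exact hRd e hlive)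
  refine ⟨left, right, W, Δ, h1, h2, h3, fun k hk => ?_⟩
  obtain ⟨h5, h6⟩ := h4 k hk
  exact key _ h5 h6

universe u

/-- The abstract theorem, for both kinds of shallow networks. -/
theorem shallow_abs' (c h L : ℕ) : ∃ m₀ : ℕ, ∀ (F : Type u) [Field F] (m : ℕ), m₀ ≤ m →
    ∀ (κ : Type) [Fintype κ] (N : Wiring (Fin m × Fin m))
      (out : κ → (Fin m × Fin m) ⊕ Fin N.size), Rich F N out → N.wires ≤ c * m ^ 2 →
      N.ShallowLE out h → L * m ^ 2 < Fintype.card κ := by
  obtain ⟨m₁, hm₁⟩ := shallow_abs.{u} c h L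
  obtain ⟨m₂, hm₂⟩ := shallow_abs.{u} c (h + 2) L
  refine ⟨max m₁ m₂, fun F _ m hm κ _ N out hrich hwires hpath => ?_⟩
  rcases hpath with hpath | hpath
  · exact hm₁ F m ((le_max_left _ _).trans hm) κ N out hrich hwires hpath
  · exact hm₂ F m ((le_max_right _ _).trans hm) κ N.redirect _ hrich.redirect hwires
      fun l hl => List.countP_le_length.trans (N.redirect_length h hpath l hl)

end Pool.Agent.H719.OS
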