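import Pool.Agent.H719.OS.Basic

set_option autoImplicit false

/-!
# The choice of the entries, and subspaces of matrices
-/

namespace Pool.Agent.H719.OS

open Finset Matrix

/-- the `t` lightest elements -/
theorem exists_small {α : Type*} [DecidableEq α] (w : α → ℕ) (t n : ℕ) : ∀ S : Finset α,
    S.card = t + n → ∃ T ⊆ S, T.card = t ∧ S.card * ∑ i ∈ T, w i ≤ t * ∑ i ∈ S, w i := by
  induction n with
  | zero =>
    intro S hS
    exact ⟨S, Subset.refl _, hS, by rw [hS, add_zero]⟩
  | succ n ih =>
    intro S hS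
    have hne : S.Nonempty := by
      rw [← card_pos]
      omega
    obtain ⟨a, ha, hmax⟩ := exists_max_image S w hne
    have hcard := card_erase_of_mem ha
    have hS' : (S.erase a).card = t + n := by omega
    obtain ⟨T, hTS, hT, hle⟩ := ih (S.erase a) hS'
    refine ⟨T, hTS.trans (erase_subset _ _), hT, ?_⟩
    have h1 : ∑ i ∈ S, w i = w a + ∑ i ∈ S.erase a, w i := (add_sum_erase S w ha).symm
    have h2 : ∑ i ∈ S.erase a, w i ≤ (t + n) * w a := by
      rw [← hS', ← smul_eq_mul]
      exact sum_le_card_nsmul _ _ _ fun i hi => hmax i (mem_of_mem_erase hi)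
    rw [hS'] at hle
    rw [hS, h1]
    rcases Nat.eq_zero_or_pos (t + n) with h0 | h0
    · have ht : t = 0 := by omega
      subst ht
      rw [card_eq_zero] at hT
      subst hT
      simp
    · set X := ∑ i ∈ T, w i
      set Z := ∑ i ∈ S.erase a, w i
      have h3 : (t + n) * ((t + (n + 1)) * X) ≤ (t + n) * (t * (w a + Z)) := by
        calc (t + n) * ((t + (n + 1)) * X) = (t + n + 1) * ((t + n) * X) := by ring
          _ ≤ (t + n + 1) * (t * Z) := Nat.mul_le_mul_left _ hle
          _ = (t + n) * (t * Z) + t * Z := by ring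
          _ ≤ (t + n) * (t * Z) + t * ((t + n) * w a) := by
              exact Nat.add_le_add_left (Nat.mul_le_mul_left _ h2) _
          _ = (t + n) * (t * (w a + Z)) := by ring
      exact Nat.le_of_mul_le_mul_left h3 h0

variable {m : ℕ}

/-- `t` entries in each column of small total weight -/
theorem exists_G (w : Fin m × Fin m → ℕ) (t : ℕ) (ht : t ≤ m) :
    ∃ G : Finset (Fin m × Fin m), G.card = t * m ∧
      (∀ k, (univ.filter fun i => (i, k) ∈ G).card ≤ t) ∧
      m * ∑ p ∈ G, w p ≤ t * ∑ p, w p := by
  classical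
  have h := fun k : Fin m => exists_small (fun i : Fin m => w (i, k)) t (m - t) univ
    (by rw [card_univ, Fintype.card_fin]; omega)
  choose T _ hTc hT using h
  have hfil : ∀ k, (univ.filter fun i => (i, k) ∈ univ.filter fun p : Fin m × Fin m =>
      p.1 ∈ T p.2) = T k := by
    intro k
    ext i
    simp
  refine ⟨univ.filter fun p => p.1 ∈ T p.2, ?_, fun k => ?_, ?_⟩
  · have h3 := card_eq_sum_card_fiberwise (s := univ.filter fun p : Fin m × Fin m => p.1 ∈ T p.2)
      (f := fun p : Fin m × Fin m => p.2) (t := univ) (fun p _ => mem_univ _)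
    rw [h3]
    have h4 : ∀ k, ((univ.filter fun p : Fin m × Fin m => p.1 ∈ T p.2).filter
        fun p => p.2 = k).card = t := by
      intro k
      rw [← hTc k]
      refine card_nbij' (fun p => p.1) (fun i => (i, k)) ?_ ?_ ?_ ?_
      · intro p hp
        rw [mem_coe, mem_filter, mem_filter] at hp
        rw [mem_coe, ← hp.2]
        exact hp.1.2
      · intro i hi
        rw [mem_coe, mem_filter, mem_filter]
        exact ⟨⟨mem_univ _, hi⟩, rfl⟩
      · intro p hp
        rw [mem_coe, mem_filter, mem_filter] at hp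
        exact Prod.ext rfl hp.2.symm
      · intro i _
        rfl
    rw [sum_congr rfl fun k _ => h4 k, sum_const, card_univ, Fintype.card_fin, smul_eq_mul,
      mul_comm]
  · rw [hfil, hTc]
  · have h5 : ∑ p ∈ univ.filter (fun p : Fin m × Fin m => p.1 ∈ T p.2), w p =
        ∑ k, ∑ i ∈ T k, w (i, k) := by
      rw [sum_filter, Fintype.sum_prod_type_right]
      refine sum_congr rfl fun k _ => ?_
      rw [← sum_filter]
      refine sum_congr ?_ fun _ _ => rfl
      ext i
      simp
    rw [h5, Fintype.sum_prod_type_right, mul_sum, mul_sum]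
    refine sum_le_sum fun k _ => ?_
    have := hT k
    rwa [card_univ, Fintype.card_fin] at this

variable {F : Type*} [Field F]

/-- The matrices supported on `G` on which some linear functions vanish. -/
noncomputable def sub (G : Finset (Fin m × Fin m)) {κ : Type*} (K : Finset κ)
    (L : κ → Matrix (Fin m) (Fin m) F →ₗ[F] F) : Submodule F (Matrix (Fin m) (Fin m) F) where
  carrier := {A | (∀ p : Fin m × Fin m, p ∉ G → A p.1 p.2 = 0) ∧ ∀ v ∈ K, L v A = 0}
  zero_mem' := ⟨fun _ _ => rfl, fun v _ => map_zero _⟩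
  add_mem' := by
    rintro A B ⟨h1, h2⟩ ⟨h3, h4⟩
    refine ⟨fun p hp => ?_, fun v hv => ?_⟩
    · rw [Matrix.add_apply, h1 p hp, h3 p hp, add_zero]
    · rw [map_add, h2 v hv, h4 v hv, add_zero]
  smul_mem' := by
    rintro c A ⟨h1, h2⟩
    refine ⟨fun p hp => ?_, fun v hv => ?_⟩
    · rw [Matrix.smul_apply, h1 p hp, smul_zero]
    · rw [map_smul, h2 v hv, smul_zero]

theorem finrank_sub (G : Finset (Fin m × Fin m)) {κ : Type*} (K : Finset κ)
    (L : κ → Matrix (Fin m) (Fin m) F →ₗ[F] F) :
    G.card ≤ Module.finrank F (sub G K L) + K.card := by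
  classical
  let Φ : Matrix (Fin m) (Fin m) F →ₗ[F] ({p // p ∈ Gᶜ} → F) × ({v // v ∈ K} → F) :=
    LinearMap.prod
      { toFun := fun A p => A p.1.1 p.1.2
        map_add' := fun _ _ => rfl
        map_smul' := fun _ _ => rfl }
      (LinearMap.pi fun v => L v.1)
  have hker : LinearMap.ker Φ = sub G K L := by
    ext A
    rw [LinearMap.mem_ker]
    constructor
    · intro h
      have h1 := congrArg Prod.fst h
      have h2 := congrArg Prod.snd h
      exact ⟨fun p hp => congrFun h1 ⟨p, mem_compl.2 hp⟩, fun v hv => congrFun h2 ⟨v, hv⟩⟩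
    · rintro ⟨h1, h2⟩
      refine Prod.ext ?_ ?_
      · funext p
        exact h1 p.1 (mem_compl.1 p.2)
      · funext v
        exact h2 v.1 v.2
  have h1 := LinearMap.finrank_range_add_finrank_ker Φ
  have h2 : Module.finrank F (LinearMap.range Φ) ≤ Gᶜ.card + K.card := by
    refine (Submodule.finrank_le _).trans (le_of_eq ?_)
    rw [Module.finrank_prod, Module.finrank_fintype_fun_eq_card,
      Module.finrank_fintype_fun_eq_card, Fintype.card_coe, Fintype.card_coe]
  have h3 : Module.finrank F (Matrix (Fin m) (Fin m) F) = Fintype.card (Fin m × Fin m) := by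
    rw [Module.finrank_matrix]
    simp
  rw [hker, h3] at h1
  have h4 := card_add_card_compl G
  omega

end Pool.Agent.H719.OS
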