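import Pool.Agent.H719.OS.NetLem

set_option autoImplicit false
set_option linter.unusedSectionVars false

/-!
# The stage which processes the first matrix
-/

namespace Pool.Agent.H719.OS

open Finset Matrix

variable {F : Type*} [Field F] {m : ℕ}

theorem mem_alive {κ : Type*} [Fintype κ] (left : κ → Matrix (Fin m) (Fin m) F → F)
    (S : Set (Matrix (Fin m) (Fin m) F)) (k : κ) :
    k ∈ alive left S ↔ ∃ A ∈ S, left k A ≠ 0 := by
  simp only [alive, mem_filter_univ]

/-- the entries of a matrix -/
def ent (A : Matrix (Fin m) (Fin m) F) : Fin m × Fin m → F := fun p => A p.1 p.2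

/-- the entries of a matrix, as a linear map -/
def entL : Matrix (Fin m) (Fin m) F →ₗ[F] (Fin m × Fin m → F) where
  toFun := ent
  map_add' _ _ := rfl
  map_smul' _ _ := rfl

theorem IsAlg.shift {κ : Type*} [Fintype κ] {left right : κ → Matrix (Fin m) (Fin m) F → F}
    {W : κ → Matrix (Fin m) (Fin m) F} (h : IsAlg left right W) (A₀ : Matrix (Fin m) (Fin m) F) :
    IsAlg (fun k D => left k (D + A₀) - left k A₀) right W := by
  intro D B
  have h1 : D * B = (D + A₀) * B - A₀ * B := by
    rw [← Matrix.sub_mul, add_sub_cancel_right]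
  rw [h1, h (D + A₀) B, h A₀ B, ← Finset.sum_sub_distrib]
  refine Finset.sum_congr rfl fun k _ => ?_
  rw [← sub_smul]
  congr 1
  ring

open Classical in
/-- the matrix with given entries in `G` and zeros outside -/
noncomputable def mat (G : Finset (Fin m × Fin m)) (a : {p // p ∈ G} → F) :
    Matrix (Fin m) (Fin m) F :=
  Matrix.of fun i j => if h : (i, j) ∈ G then a ⟨(i, j), h⟩ else 0

theorem mat_mem (G : Finset (Fin m × Fin m)) (a : {p // p ∈ G} → F) (p : {p // p ∈ G}) :
    ent (mat G a) p.1 = a p := by
  unfold ent mat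
  rw [Matrix.of_apply, dif_pos p.2]

theorem mat_not_mem (G : Finset (Fin m × Fin m)) (a : {p // p ∈ G} → F) (p : Fin m × Fin m)
    (hp : p ∉ G) : ent (mat G a) p = 0 := by
  unfold ent mat
  rw [Matrix.of_apply, dif_neg hp]

theorem mat_injective (G : Finset (Fin m × Fin m)) :
    Function.Injective (mat G : ({p // p ∈ G} → F) → Matrix (Fin m) (Fin m) F) := by
  intro a b h
  funext p
  rw [← mat_mem G a p, ← mat_mem G b p, h]

/-- a set of vectors in a space over a finite field spans a space of large dimension if it has many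
elements -/
theorem le_finrank_of_card {V α : Type*} [AddCommGroup V] [Module F V] [FiniteDimensional F V]
    [Fintype F] [Fintype α] (g : α → V) (hg : Function.Injective g) (Δ : Set V)
    (hΔ : ∀ a, g a ∈ Δ) (n : ℕ) (hn : Fintype.card F ^ n ≤ Fintype.card α) :
    n ≤ Module.finrank F (Submodule.span F Δ) := by
  classical
  have : Finite (Submodule.span F Δ) := Module.finite_of_finite F
  have : Fintype (Submodule.span F Δ) := Fintype.ofFinite _
  have h1 : Fintype.card α ≤ Fintype.card (Submodule.span F Δ) :=
    Fintype.card_le_of_injective (fun a => ⟨g a, Submodule.subset_span (hΔ a)⟩)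
      fun a b h => hg (congrArg Subtype.val h)
  have h2 : Fintype.card (Submodule.span F Δ) =
      Fintype.card F ^ Module.finrank F (Submodule.span F Δ) := Module.card_eq_pow_finrank
  rw [h2] at h1
  exact (Nat.pow_le_pow_iff_right Fintype.one_lt_card).1 (hn.trans h1)

theorem rich_first_finite [Finite F] {κ : Type*} [Fintype κ] (N : Network F (Fin m × Fin m))
    (out : κ → (Fin m × Fin m) ⊕ Fin N.size) (f right : κ → Matrix (Fin m) (Fin m) F → F)
    (W : κ → Matrix (Fin m) (Fin m) F) (hC : IsAlg (fun k A => f k A - f k 0) right W)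
    (hout : ∀ k A, f k A = N.value (ent A) (out k)) : Rich F N.toWiring out := by
  classical
  have := Fintype.ofFinite F
  intro G Rd K hG hRd
  by_cases hGK : K.card ≤ G.card
  · let Φ : ({p // p ∈ G} → F) → ({v // v ∈ K} → F) := fun a v => N.val (ent (mat G a)) v.1
    obtain ⟨y, hy⟩ := Fintype.exists_le_card_fiber_of_mul_le_card Φ
      (n := Fintype.card F ^ (G.card - K.card)) (by
        rw [Fintype.card_fun, Fintype.card_fun, Fintype.card_coe, Fintype.card_coe, ← pow_add]
        exact Nat.pow_le_pow_right Fintype.card_pos (by omega))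
    have hne : (univ.filter fun a => Φ a = y).Nonempty := by
      rw [← card_pos]
      exact lt_of_lt_of_le (pow_pos Fintype.card_pos _) hy
    obtain ⟨a₀, ha₀⟩ := hne
    have ha₀' : Φ a₀ = y := (mem_filter.1 ha₀).2
    refine ⟨_, right, W, {D | ∃ a, Φ a = y ∧ D = mat G a - mat G a₀}, hC.shift (mat G a₀),
      ?_, ?_, ?_⟩
    · rintro D ⟨a, -, rfl⟩ p hp
      rw [Matrix.sub_apply]
      have h1 : ent (mat G a) p = 0 := mat_not_mem G a p hp
      have h2 : ent (mat G a₀) p = 0 := mat_not_mem G a₀ p hp
      unfold ent at h1 h2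
      rw [h1, h2, sub_zero]
    · have h1 := le_finrank_of_card (F := F) (α := {a // a ∈ univ.filter fun a => Φ a = y})
        (fun a => mat G a.1 - mat G a₀)
        (fun a b h => Subtype.ext (mat_injective G (sub_left_injective h)))
        {D | ∃ a, Φ a = y ∧ D = mat G a - mat G a₀}
        (fun a => ⟨a.1, (mem_filter.1 a.2).2, rfl⟩) (G.card - K.card) (by
          rw [Fintype.card_coe]
          exact hy)
      omega
    · intro k hk
      obtain ⟨D, ⟨a, ha, rfl⟩, hne⟩ := (mem_alive _ _ _).1 hk
      by_contra hlive
      refine hne ?_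
      have h1 : N.value (ent (mat G a)) (out k) = N.value (ent (mat G a₀)) (out k) := by
        refine N.value_congr Rd K hRd _ _ (fun p hp => ?_) (fun v hv => ?_) (out k) hlive
        · have hp' : p ∉ G := fun h => hp (hG p h)
          rw [mat_not_mem G a p hp', mat_not_mem G a₀ p hp']
        · exact congrFun (ha.trans ha₀'.symm) ⟨v, hv⟩
      show (f k (mat G a - mat G a₀ + mat G a₀) - f k 0) - (f k (mat G a₀) - f k 0) = 0
      rw [sub_add_cancel, hout k (mat G a), hout k (mat G a₀), h1, sub_self]
  · refine ⟨_, right, W, {0}, hC, ?_, ?_, ?_⟩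
    · rintro D rfl p _
      rfl
    · omega
    · intro k hk
      obtain ⟨D, hD, hne⟩ := (mem_alive _ _ _).1 hk
      rw [Set.mem_singleton_iff] at hD
      subst hD
      exact absurd (sub_self _) hne

open Polynomial in
theorem rich_first_infinite [Infinite F] {κ : Type*} [Fintype κ] (N : Network F (Fin m × Fin m))
    (p : ∀ v, MvPolynomial {e : Fin N.wires // N.dst e = v} F)
    (hp : ∀ v y, N.gate v y = MvPolynomial.eval y (p v))
    (out : κ → (Fin m × Fin m) ⊕ Fin N.size) (f right : κ → Matrix (Fin m) (Fin m) F → F)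
    (W : κ → Matrix (Fin m) (Fin m) F) (hC : IsAlg (fun k A => f k A - f k 0) right W)
    (hout : ∀ k A, f k A = N.value (ent A) (out k)) : Rich F N.toWiring out := by
  classical
  intro G Rd K hG hRd
  refine ⟨fun k A => N.lin p (ent A) (out k), right, W,
    (sub G K (fun v => (N.linL p hp (Sum.inr v)).comp entL) : Set (Matrix (Fin m) (Fin m) F)),
    ?_, ?_, ?_, ?_⟩
  · intro A B
    ext i j
    -- an identity of polynomials
    have h1 : (C ((A * B) i j) * X : F[X]) = ∑ k, ((N.lift p).value (fun q => C (ent A q) * X)
        (out k) - C (f k 0)) * C (right k B * W k i j) := by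
      refine Polynomial.funext fun a => ?_
      rw [Polynomial.eval_finsetSum, Polynomial.eval_mul, Polynomial.eval_C, Polynomial.eval_X]
      have h2 := congrFun (congrFun (hC (a • A) B) i) j
      rw [Matrix.smul_mul, Matrix.smul_apply, smul_eq_mul, Matrix.sum_apply] at h2
      rw [mul_comm, h2]
      refine Finset.sum_congr rfl fun k _ => ?_
      rw [Polynomial.eval_mul, Polynomial.eval_sub, Polynomial.eval_C, Polynomial.eval_C,
        N.eval_line p hp, Matrix.smul_apply, smul_eq_mul]
      show (f k (a • A) - f k 0) * right k B * W k i j = _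
      rw [hout k (a • A)]
      have h3 : ent (a • A) = a • ent A := rfl
      rw [h3]
      ring
    have h4 := congrArg (fun P : F[X] => P.coeff 1) h1
    simp only [Polynomial.finsetSum_coeff, Polynomial.coeff_mul_C, Polynomial.coeff_sub,
      Polynomial.coeff_C_mul, Polynomial.coeff_X_one, mul_one] at h4
    rw [h4, Matrix.sum_apply]
    refine Finset.sum_congr rfl fun k _ => ?_
    rw [Polynomial.coeff_C_succ, sub_zero, Matrix.smul_apply, smul_eq_mul]
    unfold Network.lin
    ring
  · exact fun D hD => hD.1
  · rw [Submodule.span_eq]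
    exact finrank_sub G K _
  · intro k hk
    obtain ⟨D, hD, hne⟩ := (mem_alive _ _ _).1 hk
    by_contra hlive
    exact hne (N.lin_congr p hp Rd K hRd (ent D) (fun q hq => hD.1 q fun h => hq (hG q h))
      (fun v hv => hD.2 v hv) (out k) hlive)

theorem rich_first {κ : Type*} [Fintype κ] (N : Network F (Fin m × Fin m)) (hN : N.Admissible)
    (out : κ → (Fin m × Fin m) ⊕ Fin N.size) (f right : κ → Matrix (Fin m) (Fin m) F → F)
    (W : κ → Matrix (Fin m) (Fin m) F) (hC : IsAlg (fun k A => f k A - f k 0) right W)
    (hout : ∀ k A, f k A = N.value (ent A) (out k)) : Rich F N.toWiring out := by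
  rcases finite_or_infinite F with hF | hF
  · exact rich_first_finite N out f right W hC hout
  · rcases hN with hN | hN
    · exact absurd hN hF.not_finite
    · choose p hp using hN
      exact rich_first_infinite N p hp out f right W hC hout

end Pool.Agent.H719.OS
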