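import Pool.Agent.H719.OS.First

set_option autoImplicit false
set_option linter.unusedSectionVars false

/-!
# The stage which combines the products
-/

namespace Pool.Agent.H719.OS

open Finset Matrix

section wiring

variable {m r : ℕ}

/-- the place of an input or gate in the reversed wiring -/
def Wiring.rv (N : Wiring (Fin r)) : Fin r ⊕ Fin N.size → Fin (N.size + r) :=
  Sum.elim (Fin.natAdd N.size) fun v => Fin.castAdd r (Fin.rev v)

theorem Wiring.rv_inr (N : Wiring (Fin r)) (v : Fin N.size) :
    N.rv (Sum.inr v) = Fin.castAdd r (Fin.rev v) := rfl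

theorem Wiring.rv_inl (N : Wiring (Fin r)) (l : Fin r) :
    N.rv (Sum.inl l) = Fin.natAdd N.size l := rfl

theorem Wiring.rv_injective (N : Wiring (Fin r)) : Function.Injective N.rv := by
  rintro (l | v) (l' | v') h
  · rw [rv_inl, rv_inl] at h
    rw [Fin.natAdd_injective _ _ h]
  · exfalso
    rw [rv_inl, rv_inr] at h
    have := congrArg Fin.val h
    simp only [Fin.val_castAdd, Fin.val_natAdd] at this
    have := (Fin.rev v').2
    omega
  · exfalso
    rw [rv_inl, rv_inr] at h
    have := congrArg Fin.val h
    simp only [Fin.val_castAdd, Fin.val_natAdd] at this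
    have := (Fin.rev v).2
    omega
  · rw [rv_inr, rv_inr] at h
    rw [Fin.rev_injective (Fin.castAdd_injective _ _ h)]

theorem Wiring.rv_surjective (N : Wiring (Fin r)) (x : Fin (N.size + r)) : ∃ s, N.rv s = x := by
  induction x using Fin.addCases with
  | left u => exact ⟨Sum.inr (Fin.rev u), by rw [rv_inr, Fin.rev_rev]⟩
  | right l => exact ⟨Sum.inl l, rfl⟩

/-- the reversed wiring; the entries of the matrix take the place of the outputs -/
abbrev Wiring.reverse (N : Wiring (Fin r)) (o : Fin m × Fin m → Fin r ⊕ Fin N.size) :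
    Wiring (Fin m × Fin m) where
  size := N.size + r
  wires := N.wires + m * m
  src := Fin.addCases (fun e => Sum.inr (N.rv (Sum.inr (N.dst e))))
    fun p => Sum.inl (finProdFinEquiv.symm p).swap
  dst := Fin.addCases (fun e => N.rv (N.src e)) fun p => N.rv (o (finProdFinEquiv.symm p))
  acyclic e u h := by
    induction e using Fin.addCases with
    | left e =>
      rw [Fin.addCases_left] at h ⊢
      rw [← Sum.inr.inj h, rv_inr]
      cases hs : N.src e with
      | inl l =>
        rw [rv_inl]
        simp only [Fin.lt_def, Fin.val_castAdd, Fin.val_natAdd]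
        have := (Fin.rev (N.dst e)).2
        omega
      | inr w =>
        rw [rv_inr]
        have := N.acyclic e w hs
        simp only [Fin.lt_def, Fin.val_castAdd, Fin.val_rev] at this ⊢
        have := (N.dst e).2
        omega
    | right p =>
      rw [Fin.addCases_right] at h
      cases h

variable (N : Wiring (Fin r)) (o : Fin m × Fin m → Fin r ⊕ Fin N.size)

theorem src_left (e : Fin N.wires) : (N.reverse o).src (Fin.castAdd (m * m) e) =
    Sum.inr (N.rv (Sum.inr (N.dst e))) := by
  unfold Wiring.reverse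
  simp only
  rw [Fin.addCases_left]

theorem src_right (p : Fin (m * m)) : (N.reverse o).src (Fin.natAdd N.wires p) =
    Sum.inl (finProdFinEquiv.symm p).swap := by
  unfold Wiring.reverse
  simp only
  rw [Fin.addCases_right]

theorem dst_left (e : Fin N.wires) : (N.reverse o).dst (Fin.castAdd (m * m) e) =
    N.rv (N.src e) := by
  unfold Wiring.reverse
  simp only
  rw [Fin.addCases_left]

theorem dst_right (p : Fin (m * m)) : (N.reverse o).dst (Fin.natAdd N.wires p) =
    N.rv (o (finProdFinEquiv.symm p)) := by
  unfold Wiring.reverse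
  simp only
  rw [Fin.addCases_right]

/-- wires between gates of the reversed wiring -/
theorem wire_rev (x y : Fin (N.size + r))
    (h : ∃ e, (N.reverse o).src e = Sum.inr x ∧ (N.reverse o).dst e = y) :
    ∃ e, N.rv (Sum.inr (N.dst e)) = x ∧ N.rv (N.src e) = y := by
  obtain ⟨e, h1, h2⟩ := h
  induction e using Fin.addCases with
  | left e =>
    rw [src_left] at h1
    rw [dst_left] at h2
    exact ⟨e, Sum.inr.inj h1, h2⟩
  | right p =>
    rw [src_right] at h1
    cases h1

theorem rev_fanOut (v : Fin N.size) :
    (univ.filter fun e => (N.reverse o).src e = Sum.inr (N.rv (Sum.inr v))).card = N.fanIn v := by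
  unfold Wiring.fanIn
  rw [card_filter, card_filter]
  refine (Fin.sum_univ_add (fun e : Fin (N.wires + m * m) =>
    if (N.reverse o).src e = Sum.inr (N.rv (Sum.inr v)) then 1 else 0)).trans ?_
  have h2 : ∑ p : Fin (m * m), (if (N.reverse o).src (Fin.natAdd N.wires p) =
      Sum.inr (N.rv (Sum.inr v)) then 1 else 0) = 0 := by
    refine Finset.sum_eq_zero fun p _ => if_neg ?_
    rw [src_right]
    exact Sum.inl_ne_inr
  rw [h2, add_zero]
  refine Finset.sum_congr rfl fun e _ => ?_
  rw [src_left]
  simp only [Sum.inr.injEq, N.rv_injective.eq_iff]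

theorem rev_fanIn (v : Fin N.size) : (N.reverse o).fanIn (N.rv (Sum.inr v)) = N.uses o v := by
  unfold Wiring.uses Wiring.fanIn
  rw [card_filter, card_filter, card_filter]
  refine (Fin.sum_univ_add (fun e : Fin (N.wires + m * m) =>
    if (N.reverse o).dst e = N.rv (Sum.inr v) then 1 else 0)).trans ?_
  congr 1
  · refine Finset.sum_congr rfl fun e _ => ?_
    rw [dst_left]
    simp only [N.rv_injective.eq_iff]
  · rw [← Equiv.sum_comp finProdFinEquiv.symm fun p => if o p = Sum.inr v then 1 else 0]
    refine Finset.sum_congr rfl fun p _ => ?_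
    rw [dst_right]
    simp only [N.rv_injective.eq_iff]

/-- the gate of the original network -/
def orig : Fin (N.size + r) → Option (Fin N.size) :=
  Fin.addCases (fun u => some (Fin.rev u)) fun _ => none

theorem orig_inr (v : Fin N.size) : orig N (N.rv (Sum.inr v)) = some v := by
  rw [N.rv_inr]
  simp [orig]

theorem orig_inl (l : Fin r) : orig N (N.rv (Sum.inl l)) = none := by
  rw [N.rv_inl]
  simp [orig]

theorem rev_path (w : Fin (N.size + r) → ℕ) (w' : Fin N.size → ℕ)
    (hw : ∀ v, w (N.rv (Sum.inr v)) = w' v)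
    (l : List (Fin (N.size + r))) (hl : (N.reverse o).IsPath l) :
    (l.filterMap (orig N)).IsChain (fun u v => ∃ e, N.src e = Sum.inr v ∧ N.dst e = u) ∧
      l.countP (fun x => 2 ≤ w x) ≤ (l.filterMap (orig N)).countP (fun v => 2 ≤ w' v) + 1 := by
  unfold Wiring.IsPath at hl
  induction l with
  | nil => exact ⟨List.IsChain.nil, Nat.zero_le _⟩
  | cons x t ih =>
    have ht := ih hl.tail
    cases t with
    | nil =>
      obtain ⟨s, rfl⟩ := N.rv_surjective x
      rcases s with l | v
      · rw [List.filterMap_cons_none (orig_inl N l), List.filterMap_nil, List.countP_singleton]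
        refine ⟨List.IsChain.nil, ?_⟩
        split_ifs <;> simp
      · rw [List.filterMap_cons_some (orig_inr N v), List.filterMap_nil, List.countP_singleton,
          List.countP_singleton, hw]
        exact ⟨List.IsChain.singleton _, Nat.le_succ _⟩
    | cons y t' =>
      obtain ⟨e, rfl, he⟩ := wire_rev N o x y (List.isChain_cons_cons.1 hl).1
      rw [List.filterMap_cons_some (orig_inr N (N.dst e))]
      refine ⟨?_, ?_⟩
      · obtain ⟨s, rfl⟩ := N.rv_surjective y
        have hs := N.rv_injective he
        rcases s with l | v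
        · rw [List.filterMap_cons_none (orig_inl N l)]
          cases t' with
          | nil =>
            rw [List.filterMap_nil]
            exact List.IsChain.singleton _
          | cons z t'' =>
            exfalso
            obtain ⟨e', he', -⟩ := wire_rev N o _ z (List.isChain_cons_cons.1 hl.tail).1
            have := N.rv_injective he'
            cases this
        · rw [List.filterMap_cons_some (orig_inr N v)]
          rw [List.filterMap_cons_some (orig_inr N v)] at ht
          exact List.isChain_cons_cons.2 ⟨⟨e, hs, rfl⟩, ht.1⟩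
      · have e1 := List.countP_cons (p := fun x => decide (2 ≤ w x))
          (a := N.rv (Sum.inr (N.dst e))) (l := y :: t')
        have e2 := List.countP_cons (p := fun v => decide (2 ≤ w' v)) (a := N.dst e)
          (l := (y :: t').filterMap (orig N))
        rw [hw] at e1
        have := ht.2
        omega

theorem rev_path' (w : Fin (N.size + r) → ℕ) (w' : Fin N.size → ℕ)
    (hw : ∀ v, w (N.rv (Sum.inr v)) = w' v)
    (h : ℕ) (hN : ∀ l, N.IsPath l → l.countP (fun v => 2 ≤ w' v) ≤ h)
    (l : List (Fin (N.size + r))) (hl : (N.reverse o).IsPath l) :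
    l.countP (fun x => 2 ≤ w x) ≤ h + 1 := by
  obtain ⟨e1, e2⟩ := rev_path N o w w' hw l hl
  refine e2.trans (Nat.add_le_add_right ?_ 1)
  have e3 := hN (l.filterMap (orig N)).reverse (by
    unfold Wiring.IsPath
    rw [List.isChain_reverse]
    exact e1)
  rwa [List.countP_reverse] at e3

theorem shallow_rev {κ : Type*} [Fintype κ] (π : κ → Fin r) (h : ℕ) (hN : N.ShallowLE o h) :
    (N.reverse o).ShallowLE (fun k => Sum.inr (N.rv (Sum.inl (π k)))) (h + 1) := by
  rcases hN with hN | hN
  · right
    exact fun l hl => rev_path' N o _ _ (fun v => rev_fanIn N o v) h hN l hl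
  · left
    intro l hl
    refine rev_path' N o _ _ (fun v => ?_) h hN l hl
    unfold Wiring.uses
    rw [rev_fanOut]
    have : (univ.filter fun k : κ => (Sum.inr (N.rv (Sum.inl (π k))) :
        (Fin m × Fin m) ⊕ Fin (N.reverse o).size) = Sum.inr (N.rv (Sum.inr v))) = ∅ := by
      rw [Finset.filter_eq_empty_iff]
      intro l _ hl
      have := N.rv_injective (Sum.inr.inj hl)
      cases this
    rw [this, card_empty, add_zero]

/-- What has to be equal in order that the outputs are equal. -/
theorem back {N : Wiring (Fin r)} {o : Fin m × Fin m → Fin r ⊕ Fin N.size}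
    (Rd : Set ((Fin m × Fin m) ⊕ Fin (N.size + r))) (K : Finset (Fin (N.size + r)))
    (hRd : ∀ e, Live Rd K ((N.reverse o).src e) → Sum.inr ((N.reverse o).dst e) ∈ Rd)
    (good : Fin r ⊕ Fin N.size → Prop) (hS : ∀ l, Live Rd K (Sum.inr (N.rv (Sum.inl l))) →
      good (Sum.inl l)) (hK : ∀ s, N.rv s ∈ K → good s)
    (hgood : ∀ v, (∀ e, N.dst e = v → good (N.src e)) → good (Sum.inr v)) :
    ∀ s, Sum.inr (N.rv s) ∈ Rd → good s := by
  have key : ∀ n (hn : n < N.size), Sum.inr (N.rv (Sum.inr ⟨n, hn⟩)) ∈ Rd →
      good (Sum.inr ⟨n, hn⟩) := by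
    intro n
    induction n using Nat.strong_induction_on with
    | _ n ih =>
      intro hn h
      by_cases hv : N.rv (Sum.inr ⟨n, hn⟩) ∈ K
      · exact hK _ hv
      · refine hgood _ fun e he => ?_
        have h1 : Live Rd K (Sum.inr (N.rv (Sum.inr ⟨n, hn⟩))) :=
          ⟨h, fun u hu he => hv (Sum.inr.inj he ▸ hu)⟩
        have h2 := hRd (Fin.castAdd (m * m) e) (by rw [src_left, he]; exact h1)
        rw [dst_left] at h2
        cases hs : N.src e with
        | inl l =>
          rw [hs] at h2
          by_cases hl : N.rv (Sum.inl l) ∈ K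
          · exact hK _ hl
          · exact hS l ⟨h2, fun u hu he => hl (Sum.inr.inj he ▸ hu)⟩
        | inr u =>
          rw [hs] at h2
          have h3 := N.acyclic e u hs
          rw [he] at h3
          exact ih u.1 h3 u.2 h2
  rintro (l | v) h
  · by_cases hl : N.rv (Sum.inl l) ∈ K
    · exact hK _ hl
    · exact hS l ⟨h, fun u hu he => hl (Sum.inr.inj he ▸ hu)⟩
  · exact key v.1 v.2 h

theorem out_reached {N : Wiring (Fin r)} {o : Fin m × Fin m → Fin r ⊕ Fin N.size}
    (G : Finset (Fin m × Fin m)) (Rd : Set ((Fin m × Fin m) ⊕ Fin (N.size + r)))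
    (K : Finset (Fin (N.size + r))) (hG : ∀ p ∈ G, Sum.inl p ∈ Rd)
    (hRd : ∀ e, Live Rd K ((N.reverse o).src e) → Sum.inr ((N.reverse o).dst e) ∈ Rd)
    (q : Fin m × Fin m) (hq : q ∈ G) : Sum.inr (N.rv (o q.swap)) ∈ Rd := by
  have h1 := hRd (Fin.natAdd N.wires (finProdFinEquiv q.swap)) (by
    rw [src_right, Equiv.symm_apply_apply, Prod.swap_swap]
    exact ⟨hG q hq, fun u _ => Sum.inl_ne_inr⟩)
  rwa [dst_right, Equiv.symm_apply_apply] at h1

end wiring

variable {F : Type*} [Field F] {m r : ℕ}

/-- The dual algorithm. -/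
theorem IsAlg.dual {ι : Type*} [Fintype ι] {left right : ι → Matrix (Fin m) (Fin m) F → F}
    {W : ι → Matrix (Fin m) (Fin m) F} (h : IsAlg left right W) :
    IsAlg (fun l Z => ∑ q : Fin m × Fin m, Z q.1 q.2 * W l q.2 q.1) left
      (fun l => Matrix.of fun j k => right l (Matrix.single k j 1)) := by
  classical
  intro Z A
  ext j k
  rw [Matrix.sum_apply]
  have h1 : ∀ q : Fin m × Fin m, (A * Matrix.single k j (1 : F)) q.2 q.1 =
      ∑ l, left l A * right l (Matrix.single k j 1) * W l q.2 q.1 := by
    intro q
    rw [h A (Matrix.single k j 1), Matrix.sum_apply]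
    exact Finset.sum_congr rfl fun l _ => rfl
  calc (Z * A) j k = ∑ q : Fin m × Fin m, Z q.1 q.2 * (A * Matrix.single k j (1 : F)) q.2 q.1 := by
        rw [Fintype.sum_prod_type, Finset.sum_eq_single j]
        · rw [Matrix.mul_apply]
          refine Finset.sum_congr rfl fun i _ => ?_
          simp
        · intro j' _ hne
          refine Finset.sum_eq_zero fun i _ => ?_
          have : (A * Matrix.single k j (1 : F)) i j' = 0 := by
            exact Matrix.mul_single_apply_of_ne _ _ _ _ _ hne _
          simp only [this, mul_zero]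
        · intro hj
          exact absurd (mem_univ _) hj
    _ = ∑ q : Fin m × Fin m, ∑ l, Z q.1 q.2 *
          (left l A * right l (Matrix.single k j 1) * W l q.2 q.1) := by
        refine Finset.sum_congr rfl fun p _ => ?_
        rw [h1, Finset.mul_sum]
    _ = ∑ l, ∑ q : Fin m × Fin m, Z q.1 q.2 *
          (left l A * right l (Matrix.single k j 1) * W l q.2 q.1) := Finset.sum_comm
    _ = _ := by
        refine Finset.sum_congr rfl fun l _ => ?_
        show _ = ((∑ q : Fin m × Fin m, Z q.1 q.2 * W l q.2 q.1) * left l A) *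
          right l (Matrix.single k j 1)
        rw [Finset.sum_mul, Finset.sum_mul]
        refine Finset.sum_congr rfl fun p _ => ?_
        ring

/-- the outputs in some positions -/
noncomputable def outL (W : Fin r → Matrix (Fin m) (Fin m) F) (G : Finset (Fin m × Fin m)) :
    (Fin r → F) →ₗ[F] ({q // q ∈ G} → F) where
  toFun x q := ∑ l, x l * W l q.1.2 q.1.1
  map_add' x y := by
    funext q
    simp only [Pi.add_apply, add_mul, Finset.sum_add_distrib]
  map_smul' c x := by
    funext q
    simp only [Pi.smul_apply, smul_eq_mul, mul_assoc, RingHom.id_apply, Finset.mul_sum]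

/-- the vectors which vanish on `S` -/
def vanish (F : Type*) [Field F] (S : Set (Fin r)) : Submodule F (Fin r → F) where
  carrier := {x | ∀ l ∈ S, x l = 0}
  zero_mem' := fun _ _ => rfl
  add_mem' := by
    intro x y hx hy l hl
    rw [Pi.add_apply, hx l hl, hy l hl, add_zero]
  smul_mem' := by
    intro c x hx l hl
    rw [Pi.smul_apply, hx l hl, smul_zero]

theorem rank_finite [Finite F] (N : Network F (Fin r))
    (o : Fin m × Fin m → Fin r ⊕ Fin N.size) (W : Fin r → Matrix (Fin m) (Fin m) F)
    (hval : ∀ p x, ∑ l, x l * W l p.1 p.2 = N.value x (o p))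
    (G : Finset (Fin m × Fin m)) (Rd : Set ((Fin m × Fin m) ⊕ Fin (N.size + r)))
    (K : Finset (Fin (N.size + r))) (hG : ∀ p ∈ G, Sum.inl p ∈ Rd)
    (hRd : ∀ e, Live Rd K ((N.toWiring.reverse o).src e) →
      Sum.inr ((N.toWiring.reverse o).dst e) ∈ Rd) :
    Module.finrank F (LinearMap.range ((outL W G).comp
      (vanish F {l | Live Rd K (Sum.inr (N.rv (Sum.inl l)))}).subtype)) ≤ K.card := by
  classical
  have := Fintype.ofFinite F
  let S : Set (Fin r) := {l | Live Rd K (Sum.inr (N.rv (Sum.inl l)))}
  let T := (outL W G).comp (vanish F S).subtype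
  have hpre : ∀ y : LinearMap.range T, ∃ x : vanish F S, T x = y.1 := fun y => y.2
  choose x hx using hpre
  have hinv : ∀ k : {k // k ∈ K}, ∃ s, N.rv s = k.1 := fun k => N.rv_surjective k.1
  choose s hs using hinv
  let Φ : LinearMap.range T → ({k // k ∈ K} → F) := fun y k => N.value (x y).1 (s k)
  have hΦ : Function.Injective Φ := by
    intro y y' h
    refine Subtype.ext ?_
    rw [← hx y, ← hx y']
    funext q
    show ∑ l, (x y).1 l * W l q.1.2 q.1.1 = ∑ l, (x y').1 l * W l q.1.2 q.1.1
    have h1 := back Rd K hRd (fun s => N.value (x y).1 s = N.value (x y').1 s)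
      (fun l hl => by
        show (x y).1 l = (x y').1 l
        rw [(x y).2 l hl, (x y').2 l hl])
      (fun t ht => by
        have h2 := congrFun h ⟨N.rv t, ht⟩
        have h3 : s ⟨N.rv t, ht⟩ = t := N.rv_injective (hs ⟨N.rv t, ht⟩)
        simp only [Φ, h3] at h2
        exact h2)
      (fun v hv => by
        show N.val _ v = N.val _ v
        rw [N.val_eq, N.val_eq]
        congr 1
        funext e
        exact hv e.1 e.2)
      _ (out_reached G Rd K hG hRd q.1 q.2)
    have h4 := hval q.1.swap (x y).1
    have h5 := hval q.1.swap (x y').1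
    simp only [Prod.fst_swap, Prod.snd_swap] at h4 h5
    rw [h4, h5]
    exact h1
  have : Finite (LinearMap.range T) := Module.finite_of_finite F
  have : Fintype (LinearMap.range T) := Fintype.ofFinite _
  have h1 := Fintype.card_le_of_injective Φ hΦ
  have h2 : Fintype.card (LinearMap.range T) =
      Fintype.card F ^ Module.finrank F (LinearMap.range T) := Module.card_eq_pow_finrank
  rw [h2, Fintype.card_fun, Fintype.card_coe] at h1
  exact (Nat.pow_le_pow_iff_right Fintype.one_lt_card).1 h1

theorem finrank_range_le {X E κ : Type*} [AddCommGroup X] [Module F X] [FiniteDimensional F X]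
    [AddCommGroup E] [Module F E] [Fintype κ] (T : X →ₗ[F] E) (Ψ : X →ₗ[F] (κ → F))
    (h : LinearMap.ker Ψ ≤ LinearMap.ker T) :
    Module.finrank F (LinearMap.range T) ≤ Fintype.card κ := by
  have h1 := LinearMap.finrank_range_add_finrank_ker T
  have h2 := LinearMap.finrank_range_add_finrank_ker Ψ
  have h3 := Submodule.finrank_mono h
  have h4 : Module.finrank F (LinearMap.range Ψ) ≤ Fintype.card κ := by
    refine (Submodule.finrank_le _).trans (le_of_eq ?_)
    exact Module.finrank_fintype_fun_eq_card F
  omega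

open Polynomial in
theorem rank_infinite [Infinite F] (N : Network F (Fin r))
    (p : ∀ v, MvPolynomial {e : Fin N.wires // N.dst e = v} F)
    (hp : ∀ v y, N.gate v y = MvPolynomial.eval y (p v))
    (o : Fin m × Fin m → Fin r ⊕ Fin N.size) (W : Fin r → Matrix (Fin m) (Fin m) F)
    (hval : ∀ p x, ∑ l, x l * W l p.1 p.2 = N.value x (o p))
    (G : Finset (Fin m × Fin m)) (Rd : Set ((Fin m × Fin m) ⊕ Fin (N.size + r)))
    (K : Finset (Fin (N.size + r))) (hG : ∀ p ∈ G, Sum.inl p ∈ Rd)
    (hRd : ∀ e, Live Rd K ((N.toWiring.reverse o).src e) →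
      Sum.inr ((N.toWiring.reverse o).dst e) ∈ Rd) :
    Module.finrank F (LinearMap.range ((outL W G).comp
      (vanish F {l | Live Rd K (Sum.inr (N.rv (Sum.inl l)))}).subtype)) ≤ K.card := by
  classical
  let S : Set (Fin r) := {l | Live Rd K (Sum.inr (N.rv (Sum.inl l)))}
  have hinv : ∀ k : {k // k ∈ K}, ∃ s, N.rv s = k.1 := fun k => N.rv_surjective k.1
  choose s hs using hinv
  have hlin : ∀ q x, N.lin p x (o q) = ∑ l, x l * W l q.1 q.2 := by
    intro q x
    have h1 : (N.lift p).value (fun i => C (x i) * X) (o q) =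
        C (∑ l, x l * W l q.1 q.2) * X := by
      refine Polynomial.funext fun a => ?_
      rw [N.eval_line p hp, ← hval, Polynomial.eval_mul, Polynomial.eval_C, Polynomial.eval_X,
        Finset.sum_mul]
      refine Finset.sum_congr rfl fun l _ => ?_
      rw [Pi.smul_apply, smul_eq_mul]
      ring
    unfold Network.lin
    rw [h1, Polynomial.coeff_C_mul, Polynomial.coeff_X_one, mul_one]
  let Ψ : vanish F S →ₗ[F] ({k // k ∈ K} → F) :=
    LinearMap.pi fun k => (N.linL p hp (s k)).comp (vanish F S).subtype
  have h1 := finrank_range_le ((outL W G).comp (vanish F S).subtype) Ψ (by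
    intro x hx
    rw [LinearMap.mem_ker] at hx ⊢
    funext q
    show ∑ l, x.1 l * W l q.1.2 q.1.1 = 0
    have h2 := back Rd K hRd (fun t => N.lin p x.1 t = 0)
      (fun l hl => by
        rw [N.lin_inl]
        exact x.2 l hl)
      (fun t ht => by
        have h2 := congrFun hx ⟨N.rv t, ht⟩
        have h3 : s ⟨N.rv t, ht⟩ = t := N.rv_injective (hs ⟨N.rv t, ht⟩)
        have h4 : N.lin p x.1 (s ⟨N.rv t, ht⟩) = 0 := h2
        rwa [h3] at h4)
      (fun v hv => by
        rw [N.lin_inr p hp]
        refine Finset.sum_eq_zero fun e _ => ?_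
        rw [hv e.1 e.2, mul_zero])
      _ (out_reached G Rd K hG hRd q.1 q.2)
    have h3 := hlin q.1.swap x.1
    simp only [Prod.fst_swap, Prod.snd_swap] at h3
    rw [← h3]
    exact h2)
  rwa [Fintype.card_coe] at h1

theorem rich_last {κ : Type*} [Fintype κ] (N : Network F (Fin r)) (hN : N.Admissible)
    (o : Fin m × Fin m → Fin r ⊕ Fin N.size) (W : Fin r → Matrix (Fin m) (Fin m) F)
    (hval : ∀ p x, ∑ l, x l * W l p.1 p.2 = N.value x (o p)) (π : κ → Fin r)
    (left right : κ → Matrix (Fin m) (Fin m) F → F)
    (hC : IsAlg left right (fun k => W (π k))) :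
    Rich F (N.toWiring.reverse o) (fun k => Sum.inr (N.rv (Sum.inl (π k)))) := by
  classical
  intro G Rd K hG hRd
  have hrank : Module.finrank F (LinearMap.range ((outL W G).comp
      (vanish F {l | Live Rd K (Sum.inr (N.rv (Sum.inl l)))}).subtype)) ≤ K.card := by
    rcases finite_or_infinite F with hF | hF
    · exact rank_finite N o W hval G Rd K hG hRd
    · rcases hN with hN | hN
      · exact absurd hN hF.not_finite
      · choose p hp using hN
        exact rank_infinite N p hp o W hval G Rd K hG hRd
  let S : Set (Fin r) := {l | Live Rd K (Sum.inr (N.rv (Sum.inl l)))}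
  let T := (outL W G).comp (vanish F S).subtype
  let b := Module.finBasis F (LinearMap.range T)
  let ψ : ({q // q ∈ G} → F) → Matrix (Fin m) (Fin m) F →ₗ[F] F := fun y =>
    { toFun := fun Z => ∑ q : {q // q ∈ G}, y q * Z q.1.1 q.1.2
      map_add' := by
        intro Z Z'
        simp only [Matrix.add_apply, mul_add, Finset.sum_add_distrib]
      map_smul' := by
        intro c Z
        simp only [Matrix.smul_apply, smul_eq_mul, RingHom.id_apply, Finset.mul_sum]
        exact Finset.sum_congr rfl fun q _ => by ring }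
  refine ⟨_, left, _, (sub G (univ : Finset (Fin (Module.finrank F (LinearMap.range T))))
    (fun i => ψ (b i).1) : Set (Matrix (Fin m) (Fin m) F)), hC.dual, ?_, ?_, ?_⟩
  · exact fun D hD => hD.1
  · rw [Submodule.span_eq]
    have h1 := finrank_sub G (univ : Finset (Fin (Module.finrank F (LinearMap.range T))))
      (fun i => ψ (b i).1)
    rw [card_univ, Fintype.card_fin] at h1
    have h2 : Module.finrank F (LinearMap.range T) ≤ K.card := hrank
    omega
  · intro k hk
    obtain ⟨D, hD, hne⟩ := (mem_alive _ _ _).1 hk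
    by_contra hlive
    refine hne ?_
    -- the coefficients of the product
    let x : vanish F S := ⟨Pi.single (π k) 1, fun l hl => by
      refine Pi.single_eq_of_ne ?_ _
      rintro rfl
      exact hlive hl⟩
    have hTx : ∀ q : {q // q ∈ G}, T x q = W (π k) q.1.2 q.1.1 := by
      intro q
      show ∑ l, (Pi.single (π k) (1 : F) : Fin r → F) l * W l q.1.2 q.1.1 = _
      rw [Finset.sum_eq_single (π k)]
      · rw [Pi.single_eq_same, one_mul]
      · intro l _ hne
        rw [Pi.single_eq_of_ne hne, zero_mul]
      · intro h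
        exact absurd (mem_univ _) h
    have hzero : ∀ y : LinearMap.range T, ψ y.1 D = 0 := by
      intro y
      have h2 : y.1 = ∑ i, b.repr y i • (b i).1 := by
        conv_lhs => rw [← b.sum_repr y]
        rw [Submodule.coe_sum]
        exact Finset.sum_congr rfl fun i _ => rfl
      rw [h2]
      show ∑ q : {q // q ∈ G}, (∑ i, b.repr y i • (b i).1) q * D q.1.1 q.1.2 = 0
      have h3 : ∀ q : {q // q ∈ G}, (∑ i, b.repr y i • (b i).1) q * D q.1.1 q.1.2 =
          ∑ i, b.repr y i * ((b i).1 q * D q.1.1 q.1.2) := by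
        intro q
        rw [Finset.sum_apply, Finset.sum_mul]
        refine Finset.sum_congr rfl fun i _ => ?_
        rw [Pi.smul_apply, smul_eq_mul]
        ring
      rw [Finset.sum_congr rfl fun q _ => h3 q, Finset.sum_comm]
      refine Finset.sum_eq_zero fun i _ => ?_
      rw [← Finset.mul_sum]
      have h4 : ψ (b i).1 D = 0 := hD.2 i (mem_univ _)
      have h5 : ∑ q : {q // q ∈ G}, (b i).1 q * D q.1.1 q.1.2 = 0 := h4
      rw [h5, mul_zero]
    have h6 := hzero ⟨T x, x, rfl⟩
    have h7 : ∑ q : {q // q ∈ G}, T x q * D q.1.1 q.1.2 = 0 := h6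
    have h8 : ∑ q : Fin m × Fin m, D q.1 q.2 * W (π k) q.2 q.1 =
        ∑ q ∈ G, D q.1 q.2 * W (π k) q.2 q.1 := by
      refine (Finset.sum_subset (subset_univ _) fun q _ hq => ?_).symm
      rw [hD.1 q hq, zero_mul]
    show ∑ q : Fin m × Fin m, D q.1 q.2 * W (π k) q.2 q.1 = 0
    rw [h8, ← Finset.sum_coe_sort, ← h7]
    refine Finset.sum_congr rfl fun q _ => ?_
    rw [hTx]
    ring

end Pool.Agent.H719.OS
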