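import Pool.Agent.H719.OS.Byp

set_option autoImplicit false
set_option linter.unusedSectionVars false

/-!
# Networks with arbitrary gates: lemmas
-/

namespace Pool.Agent.H719.OS

open Finset Matrix

section general

variable {F ι : Type*}

theorem Network.val_eq (N : Network F ι) (x : ι → F) (v : Fin N.size) :
    N.val x v = N.gate v fun e => N.value x (N.src e) := by
  rw [Network.val]
  congr 1
  funext e
  unfold Network.value
  split
  · rename_i i h
    rw [h, Sum.elim_inl]
  · rename_i u h
    rw [h, Sum.elim_inr]

theorem Network.value_congr (N : Network F ι) (Rd : Set (ι ⊕ Fin N.size))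
    (K : Finset (Fin N.size)) (hRd : ∀ e, Live Rd K (N.src e) → Sum.inr (N.dst e) ∈ Rd)
    (x x' : ι → F) (hx : ∀ i, Sum.inl i ∉ Rd → x i = x' i)
    (hK : ∀ v ∈ K, N.val x v = N.val x' v) :
    ∀ s, ¬ Live Rd K s → N.value x s = N.value x' s := by
  have key : ∀ n (hn : n < N.size), ¬ Live Rd K (Sum.inr ⟨n, hn⟩) →
      N.val x ⟨n, hn⟩ = N.val x' ⟨n, hn⟩ := by
    intro n
    induction n using Nat.strong_induction_on with
    | _ n ih =>
      intro hn hlive
      by_cases hv : (⟨n, hn⟩ : Fin N.size) ∈ K
      · exact hK _ hv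
      · have hnot : Sum.inr ⟨n, hn⟩ ∉ Rd := fun h =>
          hlive ⟨h, fun u hu he => hv (Sum.inr.inj he ▸ hu)⟩
        rw [N.val_eq, N.val_eq]
        congr 1
        funext e
        have h1 : ¬ Live Rd K (N.src e) := by
          intro h
          have := hRd e h
          rw [e.2] at this
          exact hnot this
        cases hs : N.src e with
        | inl i =>
          rw [hs] at h1
          refine hx i fun h => h1 ⟨h, fun u _ => Sum.inl_ne_inr⟩
        | inr u =>
          rw [hs] at h1
          have h2 := N.acyclic e u hs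
          rw [e.2] at h2
          exact ih u.1 h2 u.2 h1
  rintro (i | v) hs
  · exact hx i fun h => hs ⟨h, fun u _ => Sum.inl_ne_inr⟩
  · exact key v.1 v.2 hs

end general

section poly

open Polynomial

variable {F ι : Type*} [Field F]

/-- the network over the polynomials -/
noncomputable abbrev Network.lift (N : Network F ι)
    (p : ∀ v, MvPolynomial {e : Fin N.wires // N.dst e = v} F) : Network F[X] ι where
  toWiring := N.toWiring
  gate v y := MvPolynomial.aeval y (p v)

theorem Network.eval_lift (N : Network F ι)
    (p : ∀ v, MvPolynomial {e : Fin N.wires // N.dst e = v} F)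
    (hp : ∀ v y, N.gate v y = MvPolynomial.eval y (p v)) (x : ι → F[X]) (a : F)
    (s : ι ⊕ Fin N.size) :
    ((N.lift p).value x s).eval a = N.value (fun i => (x i).eval a) s := by
  have key : ∀ n (hn : n < N.size), ((N.lift p).val x ⟨n, hn⟩).eval a =
      N.val (fun i => (x i).eval a) ⟨n, hn⟩ := by
    intro n
    induction n using Nat.strong_induction_on with
    | _ n ih =>
      intro hn
      rw [N.val_eq, (N.lift p).val_eq, hp]
      have h1 := MvPolynomial.comp_aeval_apply
        (fun e : {e : Fin N.wires // N.dst e = ⟨n, hn⟩} => (N.lift p).value x (N.src e))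
        (Polynomial.aeval a : F[X] →ₐ[F] F) (p ⟨n, hn⟩)
      rw [Polynomial.coe_aeval_eq_eval] at h1
      refine h1.trans ?_
      rw [MvPolynomial.aeval_eq_eval]
      refine congrArg (fun f => MvPolynomial.eval f (p ⟨n, hn⟩)) (funext fun e => ?_)
      cases hs : N.src e with
      | inl i => rfl
      | inr u =>
        have h2 := N.acyclic e u hs
        rw [e.2] at h2
        exact ih u.1 h2 u.2
  rcases s with i | v
  · rfl
  · exact key v.1 v.2

theorem coeff_one_aeval {σ : Type*} [Fintype σ] [DecidableEq σ] (y : σ → F[X])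
    (p : MvPolynomial σ F) :
    (MvPolynomial.aeval y p).coeff 1 =
      ∑ e, MvPolynomial.eval (fun e => (y e).coeff 0) (MvPolynomial.pderiv e p) *
        (y e).coeff 1 := by
  have h0 : ∀ p : MvPolynomial σ F, (MvPolynomial.aeval y p).coeff 0 =
      MvPolynomial.eval (fun e => (y e).coeff 0) p := by
    intro p
    rw [Polynomial.coeff_zero_eq_eval_zero]
    have h1 := MvPolynomial.comp_aeval_apply y (Polynomial.aeval (0 : F) : F[X] →ₐ[F] F) p
    rw [Polynomial.coe_aeval_eq_eval] at h1
    refine h1.trans ?_
    rw [MvPolynomial.aeval_eq_eval]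
    refine congrArg (fun f => MvPolynomial.eval f p) (funext fun e => ?_)
    rw [Polynomial.coeff_zero_eq_eval_zero]
  induction p using MvPolynomial.induction_on with
  | C a =>
    rw [MvPolynomial.algHom_C, Polynomial.algebraMap_eq, Polynomial.coeff_C]
    simp
  | add p q hp hq =>
    rw [map_add, Polynomial.coeff_add, hp, hq, ← Finset.sum_add_distrib]
    refine Finset.sum_congr rfl fun e _ => ?_
    rw [map_add, map_add]
    ring
  | mul_X p n hp =>
    rw [map_mul, MvPolynomial.aeval_X, Polynomial.mul_coeff_one]
    rw [h0, hp, Finset.sum_mul]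
    have h2 : MvPolynomial.eval (fun e => (y e).coeff 0) p * (y n).coeff 1 =
        ∑ e, MvPolynomial.eval (fun e => (y e).coeff 0) p * (if e = n then 1 else 0) *
          (y e).coeff 1 := by
      rw [Finset.sum_eq_single n]
      · rw [if_pos rfl, mul_one]
      · intro e _ hne
        rw [if_neg hne, mul_zero, zero_mul]
      · intro h
        exact absurd (mem_univ _) h
    rw [h2, ← Finset.sum_add_distrib]
    refine Finset.sum_congr rfl fun e _ => ?_
    rw [Derivation.leibniz, MvPolynomial.pderiv_X, smul_eq_mul, smul_eq_mul, map_add, map_mul,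
      map_mul, MvPolynomial.eval_X]
    have h3 : MvPolynomial.eval (fun e => (y e).coeff 0) ((Pi.single e 1 : σ → MvPolynomial σ F) n) =
        if e = n then 1 else 0 := by
      rw [Pi.single_apply]
      split_ifs with h4 h5 h5
      · rw [map_one]
      · exact absurd h4.symm h5
      · exact absurd h5.symm h4
      · rw [map_zero]
    rw [h3]
    ring

/-- the linear part of the value of an input or gate -/
noncomputable def Network.lin (N : Network F ι)
    (p : ∀ v, MvPolynomial {e : Fin N.wires // N.dst e = v} F) (x : ι → F)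
    (s : ι ⊕ Fin N.size) : F :=
  ((N.lift p).value (fun i => C (x i) * X) s).coeff 1

theorem Network.lin_inl (N : Network F ι)
    (p : ∀ v, MvPolynomial {e : Fin N.wires // N.dst e = v} F) (x : ι → F) (i : ι) :
    N.lin p x (Sum.inl i) = x i := by
  show (C (x i) * X : F[X]).coeff 1 = x i
  rw [Polynomial.coeff_C_mul, Polynomial.coeff_X_one, mul_one]

theorem Network.lin_inr (N : Network F ι)
    (p : ∀ v, MvPolynomial {e : Fin N.wires // N.dst e = v} F)
    (hp : ∀ v y, N.gate v y = MvPolynomial.eval y (p v)) (x : ι → F) (v : Fin N.size) :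
    N.lin p x (Sum.inr v) = ∑ e : {e : Fin N.wires // N.dst e = v},
      MvPolynomial.eval (fun e : {e : Fin N.wires // N.dst e = v} => N.value 0 (N.src e))
        (MvPolynomial.pderiv e (p v)) * N.lin p x (N.src e) := by
  classical
  show ((N.lift p).val _ v).coeff 1 = _
  rw [(N.lift p).val_eq]
  refine (coeff_one_aeval _ _).trans ?_
  refine Finset.sum_congr rfl fun e _ => ?_
  refine congrArg (· * _) (congrArg (fun f => MvPolynomial.eval f _) (funext fun e' => ?_))
  rw [Polynomial.coeff_zero_eq_eval_zero]
  refine (N.eval_lift p hp _ _ _).trans ?_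
  congr 1
  funext i
  rw [Polynomial.eval_mul, Polynomial.eval_X, mul_zero]
  rfl

theorem Network.lin_add (N : Network F ι)
    (p : ∀ v, MvPolynomial {e : Fin N.wires // N.dst e = v} F)
    (hp : ∀ v y, N.gate v y = MvPolynomial.eval y (p v)) (x y : ι → F) (c : F)
    (s : ι ⊕ Fin N.size) :
    N.lin p (c • x + y) s = c * N.lin p x s + N.lin p y s := by
  have key : ∀ n (hn : n < N.size), N.lin p (c • x + y) (Sum.inr ⟨n, hn⟩) =
      c * N.lin p x (Sum.inr ⟨n, hn⟩) + N.lin p y (Sum.inr ⟨n, hn⟩) := by
    intro n
    induction n using Nat.strong_induction_on with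
    | _ n ih =>
      intro hn
      rw [N.lin_inr p hp, N.lin_inr p hp, N.lin_inr p hp, Finset.mul_sum,
        ← Finset.sum_add_distrib]
      refine Finset.sum_congr rfl fun e _ => ?_
      have h1 : N.lin p (c • x + y) (N.src e) =
          c * N.lin p x (N.src e) + N.lin p y (N.src e) := by
        cases hs : N.src e with
        | inl i =>
          rw [N.lin_inl, N.lin_inl, N.lin_inl]
          rfl
        | inr u =>
          have h2 := N.acyclic e u hs
          rw [e.2] at h2
          exact ih u.1 h2 u.2
      rw [h1]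
      ring
  rcases s with i | v
  · rw [N.lin_inl, N.lin_inl, N.lin_inl]
    rfl
  · exact key v.1 v.2

theorem Network.lin_zero (N : Network F ι)
    (p : ∀ v, MvPolynomial {e : Fin N.wires // N.dst e = v} F)
    (hp : ∀ v y, N.gate v y = MvPolynomial.eval y (p v)) (s : ι ⊕ Fin N.size) :
    N.lin p 0 s = 0 := by
  have h1 := N.lin_add p hp 0 0 1 s
  rw [smul_zero, add_zero, one_mul] at h1
  exact left_eq_add.mp h1

/-- the linear part, as a linear map -/
noncomputable def Network.linL (N : Network F ι)
    (p : ∀ v, MvPolynomial {e : Fin N.wires // N.dst e = v} F)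
    (hp : ∀ v y, N.gate v y = MvPolynomial.eval y (p v)) (s : ι ⊕ Fin N.size) :
    (ι → F) →ₗ[F] F where
  toFun x := N.lin p x s
  map_add' x y := by
    have h1 := N.lin_add p hp x y 1 s
    rwa [one_smul, one_mul] at h1
  map_smul' c x := by
    have h1 := N.lin_add p hp x 0 c s
    rw [add_zero, N.lin_zero p hp, add_zero] at h1
    exact h1

theorem Network.lin_congr (N : Network F ι)
    (p : ∀ v, MvPolynomial {e : Fin N.wires // N.dst e = v} F)
    (hp : ∀ v y, N.gate v y = MvPolynomial.eval y (p v)) (Rd : Set (ι ⊕ Fin N.size))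
    (K : Finset (Fin N.size)) (hRd : ∀ e, Live Rd K (N.src e) → Sum.inr (N.dst e) ∈ Rd)
    (x : ι → F) (hx : ∀ i, Sum.inl i ∉ Rd → x i = 0)
    (hK : ∀ v ∈ K, N.lin p x (Sum.inr v) = 0) :
    ∀ s, ¬ Live Rd K s → N.lin p x s = 0 := by
  have key : ∀ n (hn : n < N.size), ¬ Live Rd K (Sum.inr ⟨n, hn⟩) →
      N.lin p x (Sum.inr ⟨n, hn⟩) = 0 := by
    intro n
    induction n using Nat.strong_induction_on with
    | _ n ih =>
      intro hn hlive
      by_cases hv : (⟨n, hn⟩ : Fin N.size) ∈ K
      · exact hK _ hv
      · have hnot : Sum.inr ⟨n, hn⟩ ∉ Rd := fun h =>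
          hlive ⟨h, fun u hu he => hv (Sum.inr.inj he ▸ hu)⟩
        rw [N.lin_inr p hp]
        refine Finset.sum_eq_zero fun e _ => ?_
        have h1 : ¬ Live Rd K (N.src e) := by
          intro h
          have := hRd e h
          rw [e.2] at this
          exact hnot this
        have h2 : N.lin p x (N.src e) = 0 := by
          cases hs : N.src e with
          | inl i =>
            rw [hs] at h1
            rw [N.lin_inl]
            exact hx i fun h => h1 ⟨h, fun u _ => Sum.inl_ne_inr⟩
          | inr u =>
            rw [hs] at h1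
            have h2 := N.acyclic e u hs
            rw [e.2] at h2
            exact ih u.1 h2 u.2 h1
        rw [h2, mul_zero]
  rintro (i | v) hs
  · rw [N.lin_inl]
    exact hx i fun h => hs ⟨h, fun u _ => Sum.inl_ne_inr⟩
  · exact key v.1 v.2 hs

/-- evaluation on a line -/
theorem Network.eval_line (N : Network F ι)
    (p : ∀ v, MvPolynomial {e : Fin N.wires // N.dst e = v} F)
    (hp : ∀ v y, N.gate v y = MvPolynomial.eval y (p v)) (x : ι → F) (a : F)
    (s : ι ⊕ Fin N.size) :
    ((N.lift p).value (fun i => C (x i) * X) s).eval a = N.value (a • x) s := by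
  rw [N.eval_lift p hp]
  congr 1
  funext i
  rw [Polynomial.eval_mul, Polynomial.eval_C, Polynomial.eval_X, Pi.smul_apply, smul_eq_mul,
    mul_comm]

end poly

end Pool.Agent.H719.OS
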