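import Pool.Agent.H719.OS.Last

set_option autoImplicit false
set_option linter.unusedSectionVars false

/-!
# The three stages
-/

namespace Pool.Agent.H719.OS

open Finset Matrix

universe u

variable {F : Type*} [Field F] {m : ℕ}

/-- An algorithm with arbitrary functions of the two matrices in the factors. -/
def Mixed {r : ℕ} (f g : Fin r → Fin 2 → Matrix (Fin m) (Fin m) F → F)
    (W : Fin r → Matrix (Fin m) (Fin m) F)
    (P Q : Matrix (Fin m) (Fin m) F → Matrix (Fin m) (Fin m) F) : Prop :=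
  ∀ A B, A * B = ∑ l, ((f l 0 A + g l 0 B) * (f l 1 A + g l 1 B)) • W l + P A + Q B

theorem Mixed.isAlg {r : ℕ} {f g : Fin r → Fin 2 → Matrix (Fin m) (Fin m) F → F}
    {W : Fin r → Matrix (Fin m) (Fin m) F}
    {P Q : Matrix (Fin m) (Fin m) F → Matrix (Fin m) (Fin m) F} (h : Mixed f g W P Q) :
    IsAlg (fun (k : Fin r × Fin 2) A => f k.1 k.2 A - f k.1 k.2 0)
      (fun k B => g k.1 (k.2 + 1) B - g k.1 (k.2 + 1) 0) (fun k => W k.1) := by
  have h0 := isAlg_of_mixed (fun l A => f l 0 A - f l 0 0) (fun l A => f l 1 A - f l 1 0)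
    (fun l B => g l 0 B + f l 0 0) (fun l B => g l 1 B + f l 1 0) (fun l => sub_self _)
    (fun l => sub_self _) W P Q (fun A B => by
      rw [h A B]
      congr 2
      refine Finset.sum_congr rfl fun l _ => ?_
      congr 1
      ring)
  intro A B
  rw [h0 A B, Fintype.sum_sum_type, Fintype.sum_prod_type, ← Finset.sum_add_distrib]
  refine Finset.sum_congr rfl fun l _ => ?_
  rw [Fin.sum_univ_two]
  simp only [Sum.elim_inl, Sum.elim_inr, add_sub_add_right_eq_sub, zero_add,
    show (1 : Fin 2) + 1 = 0 from rfl]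

theorem Mixed.transpose {r : ℕ} {f g : Fin r → Fin 2 → Matrix (Fin m) (Fin m) F → F}
    {W : Fin r → Matrix (Fin m) (Fin m) F}
    {P Q : Matrix (Fin m) (Fin m) F → Matrix (Fin m) (Fin m) F} (h : Mixed f g W P Q) :
    Mixed (fun l b A => g l b Aᵀ) (fun l b B => f l b Bᵀ)
      (fun l => (W l)ᵀ) (fun A => (Q Aᵀ)ᵀ) (fun B => (P Bᵀ)ᵀ) := by
  intro A B
  have h1 := congrArg Matrix.transpose (h Bᵀ Aᵀ)
  rw [Matrix.transpose_mul, Matrix.transpose_transpose, Matrix.transpose_transpose,
    Matrix.transpose_add, Matrix.transpose_add, Matrix.transpose_sum] at h1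
  rw [h1, add_assoc, add_assoc, add_comm (P Bᵀ)ᵀ]
  congr 1
  refine Finset.sum_congr rfl fun l _ => ?_
  rw [Matrix.transpose_smul]
  congr 1
  ring

/-! ### Exchanging rows and columns -/

/-- the roles of rows and columns are exchanged -/
abbrev Network.swap (N : Network F (Fin m × Fin m)) : Network F (Fin m × Fin m) where
  size := N.size
  wires := N.wires
  src e := Sum.map Prod.swap id (N.src e)
  dst := N.dst
  gate := N.gate
  acyclic e u h := by
    cases hs : N.src e with
    | inl p => rw [hs] at h; simp at h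
    | inr w =>
      rw [hs] at h
      simp only [Sum.map_inr, id, Sum.inr.injEq] at h
      rw [← h]
      exact N.acyclic e w hs

theorem Network.swap_value (N : Network F (Fin m × Fin m)) (x : Fin m × Fin m → F)
    (s : (Fin m × Fin m) ⊕ Fin N.size) :
    N.swap.value x (Sum.map Prod.swap id s) = N.value (fun p => x p.swap) s := by
  have key : ∀ n (hn : n < N.size), N.swap.val x ⟨n, hn⟩ = N.val (fun p => x p.swap) ⟨n, hn⟩ := by
    intro n
    induction n using Nat.strong_induction_on with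
    | _ n ih =>
      intro hn
      rw [N.val_eq, N.swap.val_eq]
      refine congrArg (N.gate ⟨n, hn⟩) (funext fun e => ?_)
      change N.swap.value x (Sum.map Prod.swap id (N.src e)) = _
      cases h : N.src e with
      | inl p => rfl
      | inr u =>
        have h2 := N.acyclic e u h
        rw [e.2] at h2
        exact ih u.1 h2 u.2
  rcases s with p | v
  · rfl
  · exact key v.1 v.2

theorem map_swap_inr {α β : Type*} {n : ℕ} (x : (α × β) ⊕ Fin n) (u : Fin n) :
    Sum.map Prod.swap id x = Sum.inr u ↔ x = Sum.inr u := by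
  cases x <;> simp

/-- rows and columns are exchanged -/
theorem Shallow.transpose {κ : Type*} [Fintype κ] {w h : ℕ}
    {φ : κ → Matrix (Fin m) (Fin m) F → F}
    (hf : Shallow w h (fun k (x : Fin m × Fin m → F) => φ k (Matrix.of fun i j => x (i, j)))) :
    Shallow w h
      (fun k (x : Fin m × Fin m → F) => φ k (Matrix.of fun i j => x (i, j))ᵀ) := by
  obtain ⟨N, out, h0, h1, h2, h3⟩ := hf
  refine ⟨N.swap, fun k => Sum.map Prod.swap id (out k), h0, fun k x => ?_, h2, ?_⟩
  · rw [N.swap_value, ← h1]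
    rfl
  · unfold Wiring.ShallowLE Wiring.IsPath Wiring.uses at h3 ⊢
    simp only [map_swap_inr]
    exact h3

/-- The stage which processes the first matrix. -/
theorem first_stage (c h L : ℕ) : ∃ m₀ : ℕ, ∀ (F : Type u) [Field F] (m : ℕ), m₀ ≤ m →
    ∀ (r : ℕ) (f g : Fin r → Fin 2 → Matrix (Fin m) (Fin m) F → F)
      (W : Fin r → Matrix (Fin m) (Fin m) F)
      (P Q : Matrix (Fin m) (Fin m) F → Matrix (Fin m) (Fin m) F),
      Mixed f g W P Q →
      Shallow (c * m ^ 2) h (fun (k : Fin r × Fin 2) (x : Fin m × Fin m → F) =>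
        f k.1 k.2 (Matrix.of fun i j => x (i, j))) →
      L * m ^ 2 < r := by
  obtain ⟨m₀, hm₀⟩ := shallow_abs'.{u} c h (2 * L)
  refine ⟨m₀, fun F _ m hm r f g W P Q hC hsh => ?_⟩
  obtain ⟨N, out, hN, hout, hwires, hpath⟩ := hsh
  have hrich := rich_first N hN out (fun k A => f k.1 k.2 A) _ _ hC.isAlg
    (fun k A => hout k (ent A))
  have h2 := hm₀ F m hm (Fin r × Fin 2) N.toWiring out hrich hwires hpath
  rw [Fintype.card_prod, Fintype.card_fin, Fintype.card_fin] at h2
  have h7 : 2 * L * m ^ 2 = 2 * (L * m ^ 2) := by ring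
  omega

/-- The stage which combines the products. -/
theorem last_stage (c h L : ℕ) : ∃ m₀ : ℕ, ∀ (F : Type u) [Field F] (m : ℕ), m₀ ≤ m →
    ∀ (r : ℕ) (f g : Fin r → Fin 2 → Matrix (Fin m) (Fin m) F → F)
      (W : Fin r → Matrix (Fin m) (Fin m) F)
      (P Q : Matrix (Fin m) (Fin m) F → Matrix (Fin m) (Fin m) F),
      Mixed f g W P Q →
      Shallow (c * m ^ 2) h (fun (p : Fin m × Fin m) (x : Fin r → F) =>
        ∑ l, x l * W l p.1 p.2) →
      L * m ^ 2 < r := by
  obtain ⟨m₀, hm₀⟩ := shallow_abs'.{u} (c + 1) (h + 1) (2 * L)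
  refine ⟨m₀, fun F _ m hm r f g W P Q hC hsh => ?_⟩
  obtain ⟨N, o, hN, hval, hwires, hpath⟩ := hsh
  have hrich := rich_last N hN o W hval (Prod.fst : Fin r × Fin 2 → Fin r) _ _ hC.isAlg
  have h2 := hm₀ F m hm (Fin r × Fin 2) _ _ hrich (by
      show N.wires + m * m ≤ _
      have : (c + 1) * m ^ 2 = c * m ^ 2 + m * m := by ring
      omega) (shallow_rev N.toWiring o _ h hpath)
  rw [Fintype.card_prod, Fintype.card_fin, Fintype.card_fin] at h2
  have h7 : 2 * L * m ^ 2 = 2 * (L * m ^ 2) := by ring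
  omega

end Pool.Agent.H719.OS
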