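import Mathlib

set_option autoImplicit false

/-!
# Networks

Definitions only.
-/

namespace Pool.Agent.H719.OS

open Finset

/-- The wiring of a network with inputs `ι`: it has `size` gates and `wires` wires.  The wire `e`
leads from `src e`, which is an input or a gate, to the gate `dst e`.  The gates are numbered so
that wires between gates go from smaller to larger numbers. -/
structure Wiring (ι : Type*) where
  /-- the number of gates -/
  size : ℕ
  /-- the number of wires -/
  wires : ℕ
  /-- the input or the gate where the wire starts -/
  src : Fin wires → ι ⊕ Fin size
  /-- the gate where the wire ends -/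
  dst : Fin wires → Fin size
  acyclic : ∀ e u, src e = Sum.inr u → u < dst e

variable {F ι κ : Type*}

/-- The gates of the list form a directed path. -/
def Wiring.IsPath (N : Wiring ι) (l : List (Fin N.size)) : Prop :=
  l.IsChain fun u v => ∃ e, N.src e = Sum.inr u ∧ N.dst e = v

/-- How often the value of the gate `u` is used: the number of wires which start at `u`, plus the
number of references `out k` to `u`. -/
def Wiring.uses [DecidableEq ι] [Fintype κ] (N : Wiring ι) (out : κ → ι ⊕ Fin N.size)
    (u : Fin N.size) : ℕ :=
  (univ.filter fun e => N.src e = Sum.inr u).card + (univ.filter fun k => out k = Sum.inr u).card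

/-- The number of wires which end at the gate `u`. -/
def Wiring.fanIn (N : Wiring ι) (u : Fin N.size) : ℕ := (univ.filter fun e => N.dst e = u).card

/-- Every directed path has at most `h` gates which are used at least twice, or every directed path
has at most `h` gates with at least two incoming wires.  Both hold if no directed path has more than
`h` gates. -/
def Wiring.ShallowLE [DecidableEq ι] [Fintype κ] (N : Wiring ι) (out : κ → ι ⊕ Fin N.size)
    (h : ℕ) : Prop :=
  (∀ l, N.IsPath l → l.countP (fun v => 2 ≤ N.uses out v) ≤ h) ∨
    ∀ l, N.IsPath l → l.countP (fun v => 2 ≤ N.fanIn v) ≤ h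

/-- A network: each gate computes a function of the values on its incoming wires. -/
structure Network (F ι : Type*) extends Wiring ι where
  /-- the function computed by a gate -/
  gate : (v : Fin size) → ({e : Fin wires // dst e = v} → F) → F

/-- The value of a gate, for the values `x` of the inputs. -/
def Network.val (N : Network F ι) (x : ι → F) (v : Fin N.size) : F :=
  N.gate v fun e => match _h : N.src e with
    | Sum.inl i => x i
    | Sum.inr u => N.val x u
termination_by v.val
decreasing_by exact e.2 ▸ N.acyclic e u _h

/-- The value of an input or of a gate. -/
def Network.value (N : Network F ι) (x : ι → F) : ι ⊕ Fin N.size → F :=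
  Sum.elim x (N.val x)

/-- If the field is finite, the gates may compute arbitrary functions; otherwise they compute
polynomials (of any degree). -/
def Network.Admissible [Field F] (N : Network F ι) : Prop :=
  Finite F ∨ ∀ v, ∃ p : MvPolynomial {e : Fin N.wires // N.dst e = v} F,
    ∀ y, N.gate v y = MvPolynomial.eval y p

/-- The functions `φ k` of the variables `x` are computed by an admissible network with at most `w`
wires which is shallow with parameter `h`. -/
def Shallow [Field F] [DecidableEq ι] [Fintype κ] (w h : ℕ) (φ : κ → (ι → F) → F) : Prop :=
  ∃ (N : Network F ι) (out : κ → ι ⊕ Fin N.size), N.Admissible ∧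
    (∀ k x, φ k x = N.value x (out k)) ∧ N.wires ≤ w ∧ N.ShallowLE out h

end Pool.Agent.H719.OS
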